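import Pool.Agent.T2H14.U.Num

/-!
# Large `k`, and the theorem
-/

set_option autoImplicit false

namespace Pool.Agent.T2H14.U

open Finset

theorem choose_pred {k t : ℕ} (ht : 1 ≤ t) (hk : 1 ≤ k) :
    (k.choose t : ℝ) * t = k * ((k - 1).choose (t - 1) : ℝ) := by
  obtain ⟨k', rfl⟩ : ∃ k', k = k' + 1 := ⟨k - 1, by omega⟩
  obtain ⟨t', rfl⟩ : ∃ t', t = t' + 1 := ⟨t - 1, by omega⟩
  rw [Nat.add_sub_cancel, Nat.add_sub_cancel]
  have := Nat.add_one_mul_choose_eq k' t'
  have h2 : ((k' + 1 : ℕ) : ℝ) * k'.choose t' = (k' + 1).choose (t' + 1) * ((t' + 1 : ℕ) : ℝ) := by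
    exact_mod_cast this
  linarith

theorem den_num' {k t : ℕ} (ht : 2 ≤ t) (htk : t < k) :
    Den k t (8 * (t : ℝ) * Real.log k / (k - 1).choose (t - 1)) := by
  refine (den_num ht htk).mono ?_
  have hk0 : (0 : ℝ) < k := by
    have : 0 < k := by omega
    exact_mod_cast this
  have ht0 : (0 : ℝ) < t := by
    have : 0 < t := by omega
    exact_mod_cast this
  have hd : (0 : ℝ) < k.choose t := by exact_mod_cast Nat.choose_pos htk.le
  have hd1 : (0 : ℝ) < (k - 1).choose (t - 1) := by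
    exact_mod_cast Nat.choose_pos (by omega : t - 1 ≤ k - 1)
  have h1 := choose_pred (k := k) (t := t) (by omega) (by omega)
  have hlog : 0 ≤ Real.log k := Real.log_nonneg (by
    have : 1 ≤ k := by omega
    exact_mod_cast this)
  rw [div_le_div_iff₀ hd hd1]
  have h2 : ((k : ℝ) - t) * (k - 1).choose (t - 1) ≤ k * (k - 1).choose (t - 1) := by
    gcongr; linarith
  calc 8 * ((k : ℝ) - t) * Real.log k * ((k - 1).choose (t - 1) : ℝ)
      = 8 * Real.log k * (((k : ℝ) - t) * (k - 1).choose (t - 1)) := by ring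
    _ ≤ 8 * Real.log k * (k * (k - 1).choose (t - 1)) := by gcongr
    _ = 8 * Real.log k * (k.choose t * t) := by rw [h1]
    _ = _ := by ring

theorem den_large {k t : ℕ} (ht : 2 ≤ t) (htk : 2 * t ≤ k) :
    Den k t (48 * (t : ℝ) * Real.log ((t : ℝ) + 1) / (k - 1).choose (t - 1)) := by
  have ht2 : (2 : ℝ) ≤ t := by exact_mod_cast ht
  have ht0 : (0 : ℝ) < t := by linarith
  have hk0 : 0 < k := by omega
  have hk0r : (0 : ℝ) < k := by exact_mod_cast hk0
  have hd1 : (0 : ℝ) < (k - 1).choose (t - 1) := by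
    exact_mod_cast Nat.choose_pos (by omega : t - 1 ≤ k - 1)
  have hlt : 0 < Real.log ((t : ℝ) + 1) := Real.log_pos (by linarith)
  by_cases hk : k < t ^ 5
  · refine (den_num' ht (by omega)).mono ?_
    refine div_le_div_of_nonneg_right ?_ hd1.le
    have h1 : Real.log k ≤ 5 * Real.log ((t : ℝ) + 1) := by
      calc Real.log k ≤ Real.log (((t : ℝ) + 1) ^ 5) := by
            apply Real.log_le_log hk0r
            have h2 : (k : ℝ) ≤ (t : ℝ) ^ 5 := by exact_mod_cast hk.le
            refine h2.trans ?_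
            gcongr
            linarith
        _ = 5 * Real.log ((t : ℝ) + 1) := by rw [Real.log_pow]; norm_num
    nlinarith [mul_le_mul_of_nonneg_left h1 ht0.le, mul_pos ht0 hlt]
  · push Not at hk
    obtain ⟨m, hm⟩ : ∃ m : ℕ, m = (k - 1) / t ^ 3 := ⟨_, rfl⟩
    have ht3 : 0 < t ^ 3 := by positivity
    have hm1 : m * t ^ 3 ≤ k - 1 := by rw [hm]; exact Nat.div_mul_le_self _ _
    have hm2 : k - 1 < (m + 1) * t ^ 3 := by
      rw [hm]
      have := Nat.lt_div_mul_add (a := k - 1) (b := t ^ 3) ht3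
      linarith
    have hm3 : t ^ 2 - 1 ≤ m := by
      rw [hm, Nat.le_div_iff_mul_le ht3]
      have h1 : (t ^ 2 - 1) * t ^ 3 = t ^ 5 - t ^ 3 := by
        rw [Nat.sub_mul, ← pow_add, one_mul]
      rw [h1]
      omega
    have ht4 : 4 ≤ t ^ 2 := by nlinarith
    have hm4 : 1 ≤ m := by omega
    have hk0' : t < t ^ 3 + 1 := by nlinarith
    have h0 := den_copies (den_num' (k := t ^ 3 + 1) ht hk0') (by omega : 1 ≤ t) hm4
    rw [Nat.add_sub_cancel] at h0
    have h1 := h0.mono_left (by omega : m * t ^ 3 + 1 ≤ k)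
    refine h1.mono ?_
    have hd0 : (0 : ℝ) < (t ^ 3).choose (t - 1) := by
      exact_mod_cast Nat.choose_pos (by omega : t - 1 ≤ t ^ 3)
    have hmr : (0 : ℝ) < m := by exact_mod_cast hm4
    -- the main inequality
    have hmain : ((k - 1).choose (t - 1) : ℝ) ≤ 2 * (m : ℝ) ^ (t - 1) * (t ^ 3).choose (t - 1) := by
      have h2 := choose_ratio (k - 1) (t ^ 3) (t - 1)
      obtain ⟨D, hD⟩ : ∃ D : ℕ, D = t ^ 3 + 1 - (t - 1) := ⟨_, rfl⟩
      rw [← hD] at h2
      have h2' : ((k - 1).choose (t - 1) : ℝ) * (D : ℝ) ^ (t - 1) ≤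
          ((k - 1 : ℕ) : ℝ) ^ (t - 1) * (t ^ 3).choose (t - 1) := by exact_mod_cast h2
      obtain ⟨q, hq⟩ : ∃ q : ℝ, q = 1 + 1 / ((t : ℝ) ^ 2 - 1) := ⟨_, rfl⟩
      have hs : (0 : ℝ) < (t : ℝ) ^ 2 - 1 := by nlinarith
      have hq0 : 0 < q := by rw [hq]; positivity
      have hDr : (t : ℝ) * ((t : ℝ) ^ 2 - 1) ≤ D := by
        have : t ^ 3 ≤ D + t := by omega
        have h3 : (t : ℝ) ^ 3 ≤ D + t := by exact_mod_cast this
        nlinarith
      have hD0 : (0 : ℝ) < D := lt_of_lt_of_le (by positivity) hDr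
      have hmt : (t : ℝ) ^ 2 - 1 ≤ m := by
        have : t ^ 2 ≤ m + 1 := by omega
        have h3 : (t : ℝ) ^ 2 ≤ m + 1 := by exact_mod_cast this
        linarith
      have a1 : (m : ℝ) + 1 ≤ m * q := by
        rw [hq, mul_add, mul_one, mul_one_div]
        have : 1 ≤ (m : ℝ) / ((t : ℝ) ^ 2 - 1) := by
          rw [le_div_iff₀ hs]; linarith
        linarith
      have a2 : (t : ℝ) ^ 3 ≤ D * q := by
        calc (t : ℝ) ^ 3 = (t * ((t : ℝ) ^ 2 - 1)) * q := by
              rw [hq]; field_simp; ring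
          _ ≤ D * q := by gcongr
      have a3 : ((k - 1 : ℕ) : ℝ) ≤ (m * D) * (q * q) := by
        have h3 : ((k - 1 : ℕ) : ℝ) ≤ ((m : ℝ) + 1) * (t : ℝ) ^ 3 := by exact_mod_cast hm2.le
        calc ((k - 1 : ℕ) : ℝ) ≤ ((m : ℝ) + 1) * (t : ℝ) ^ 3 := h3
          _ ≤ (m * q) * (D * q) := by gcongr
          _ = _ := by ring
      have a4 : (q * q) ^ (t - 1) ≤ 2 := by
        have h3 : q ≤ Real.exp (1 / ((t : ℝ) ^ 2 - 1)) := by
          rw [hq]
          have := Real.add_one_le_exp (1 / ((t : ℝ) ^ 2 - 1))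
          linarith
        have h4 : ((t - 1 : ℕ) : ℝ) = (t : ℝ) - 1 := by
          rw [Nat.cast_sub (by omega)]; simp
        calc (q * q) ^ (t - 1) ≤
              (Real.exp (1 / ((t : ℝ) ^ 2 - 1)) * Real.exp (1 / ((t : ℝ) ^ 2 - 1))) ^ (t - 1) := by
              gcongr
          _ = Real.exp (2 / ((t : ℝ) + 1)) := by
              rw [← Real.exp_add, ← Real.exp_nat_mul, h4]
              congr 1
              have h5 : (t : ℝ) ^ 2 - 1 = ((t : ℝ) - 1) * (t + 1) := by ring
              have h6 : (t : ℝ) - 1 ≠ 0 := by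
                intro h; linarith
              rw [h5]
              field_simp
              ring
          _ ≤ Real.exp (2 / 3) := by
              apply Real.exp_le_exp.2
              apply div_le_div_of_nonneg_left (by norm_num) (by norm_num)
              linarith
          _ ≤ 2 := by
              have h5 : Real.exp (2 / 3) ^ 3 = Real.exp 1 * Real.exp 1 := by
                rw [← Real.exp_nat_mul, ← Real.exp_add]
                norm_num
              have h6 := Real.exp_one_lt_d9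
              have h7 := Real.exp_pos (1 : ℝ)
              have h8 : Real.exp (2 / 3) ^ 3 ≤ 2 ^ 3 := by
                rw [h5]; nlinarith
              exact le_of_pow_le_pow_left₀ (by norm_num) (by norm_num) h8
      have a5 : ((k - 1 : ℕ) : ℝ) ^ (t - 1) ≤ (m * D : ℝ) ^ (t - 1) * 2 := by
        calc ((k - 1 : ℕ) : ℝ) ^ (t - 1) ≤ ((m * D) * (q * q)) ^ (t - 1) := by gcongr
          _ = (m * D : ℝ) ^ (t - 1) * (q * q) ^ (t - 1) := mul_pow _ _ _
          _ ≤ _ := by gcongr
      have a6 : ((k - 1).choose (t - 1) : ℝ) * (D : ℝ) ^ (t - 1) ≤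
          (2 * (m : ℝ) ^ (t - 1) * (t ^ 3).choose (t - 1)) * (D : ℝ) ^ (t - 1) := by
        refine h2'.trans ?_
        calc ((k - 1 : ℕ) : ℝ) ^ (t - 1) * ((t ^ 3).choose (t - 1) : ℝ)
            ≤ ((m * D : ℝ) ^ (t - 1) * 2) * (t ^ 3).choose (t - 1) := by gcongr
          _ = _ := by rw [mul_pow]; ring
      exact le_of_mul_le_mul_right a6 (by positivity)
    have hlog : Real.log ((t ^ 3 + 1 : ℕ) : ℝ) ≤ 3 * Real.log ((t : ℝ) + 1) := by
      calc Real.log ((t ^ 3 + 1 : ℕ) : ℝ) ≤ Real.log (((t : ℝ) + 1) ^ 3) := by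
            apply Real.log_le_log (by positivity)
            push_cast
            nlinarith [sq_nonneg (t : ℝ)]
        _ = 3 * Real.log ((t : ℝ) + 1) := by rw [Real.log_pow]; norm_num
    rw [div_div, div_le_div_iff₀ (by positivity) hd1]
    calc 8 * (t : ℝ) * Real.log ((t ^ 3 + 1 : ℕ) : ℝ) * ((k - 1).choose (t - 1) : ℝ)
        ≤ 8 * (t : ℝ) * (3 * Real.log ((t : ℝ) + 1)) *
          (2 * (m : ℝ) ^ (t - 1) * (t ^ 3).choose (t - 1)) := by gcongr
      _ = _ := by ring

theorem den_all {k t : ℕ} (ht : 2 ≤ t) (htk : t < k) :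
    Den k t (48 * ((min t (k - t) : ℕ) : ℝ) * Real.log (((min t (k - t) : ℕ) : ℝ) + 1) /
      (k - 1).choose (t - 1)) := by
  by_cases h : 2 * t ≤ k
  · have h1 : min t (k - t) = t := min_eq_left (by omega)
    rw [h1]
    exact den_large ht h
  · push Not at h
    have h1 : min t (k - t) = k - t := min_eq_right (by omega)
    rw [h1]
    have h2 := den_gap (R := k - t) (by omega) k (by omega)
    have h3 : k - (k - t) = t := by omega
    rw [h3] at h2
    refine h2.mono ?_
    rw [Nat.choose_symm (by omega : t ≤ k)]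
    have h4 : (k - 1).choose (t - 1) ≤ k.choose t := by
      obtain ⟨k', rfl⟩ : ∃ k', k = k' + 1 := ⟨k - 1, by omega⟩
      obtain ⟨t', rfl⟩ : ∃ t', t = t' + 1 := ⟨t - 1, by omega⟩
      rw [Nat.add_sub_cancel, Nat.add_sub_cancel, Nat.choose_succ_succ]
      omega
    have h5 : (0 : ℝ) < (k - 1).choose (t - 1) := by
      exact_mod_cast Nat.choose_pos (by omega : t - 1 ≤ k - 1)
    have h6 : ((k - 1).choose (t - 1) : ℝ) ≤ k.choose t := by exact_mod_cast h4
    have h7 : 0 ≤ Real.log (((k - t : ℕ) : ℝ) + 1) := Real.log_nonneg (by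
      have : (0 : ℝ) ≤ ((k - t : ℕ) : ℝ) := Nat.cast_nonneg _
      linarith)
    gcongr

end Pool.Agent.T2H14.U
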