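import Mathlib

/-!
# A random family, derandomized

A family with the sum of the costs of its members and of the missed sets at most the average.
-/

set_option autoImplicit false

namespace Pool.Agent.T2H14.U

open Finset

theorem exists_family {β : Type} [DecidableEq β] {p : ℝ} (hp0 : 0 ≤ p) (hp1 : p ≤ 1)
    (w : β → ℝ) {lam : Type} (N : lam → Finset β) (w' : lam → ℝ) (B : Finset β) :
    ∀ L : Finset lam, ∃ G ⊆ B,
      ∑ b ∈ G, w b + ∑ l ∈ L.filter (fun l => Disjoint (N l) G), w' l ≤
        p * ∑ b ∈ B, w b + ∑ l ∈ L, (1 - p) ^ (N l ∩ B).card * w' l := by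
  classical
  induction B using Finset.induction with
  | empty =>
    intro L
    refine ⟨∅, Finset.Subset.refl _, ?_⟩
    simp
  | @insert b B hb ih =>
    intro L
    obtain ⟨G1, hG1, h1⟩ := ih (L.filter (fun l => b ∉ N l))
    obtain ⟨G2, hG2, h2⟩ := ih L
    have hbG1 : b ∉ G1 := fun h => hb (hG1 h)
    have hbG2 : b ∉ G2 := fun h => hb (hG2 h)
    -- value of the two options
    obtain ⟨v1, hv1⟩ : ∃ v1 : ℝ, v1 = ∑ b ∈ insert b G1, w b +
      ∑ l ∈ L.filter (fun l => Disjoint (N l) (insert b G1)), w' l := ⟨_, rfl⟩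
    obtain ⟨v2, hv2⟩ : ∃ v2 : ℝ, v2 = ∑ b ∈ G2, w b +
      ∑ l ∈ L.filter (fun l => Disjoint (N l) G2), w' l := ⟨_, rfl⟩
    have e1 : v1 = w b + (∑ b ∈ G1, w b +
        ∑ l ∈ (L.filter (fun l => b ∉ N l)).filter (fun l => Disjoint (N l) G1), w' l) := by
      rw [hv1, Finset.sum_insert hbG1, Finset.filter_filter]
      have : L.filter (fun l => Disjoint (N l) (insert b G1)) =
          L.filter (fun l => b ∉ N l ∧ Disjoint (N l) G1) := by
        refine Finset.filter_congr fun l _ => ?_
        rw [Finset.disjoint_insert_right]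
      rw [this]
      ring
    have h1' : v1 ≤ w b + (p * ∑ b ∈ B, w b +
        ∑ l ∈ L.filter (fun l => b ∉ N l), (1 - p) ^ (N l ∩ B).card * w' l) := by
      rw [e1]; linarith
    have h2' : v2 ≤ p * ∑ b ∈ B, w b + ∑ l ∈ L, (1 - p) ^ (N l ∩ B).card * w' l := by
      rw [hv2]; exact h2
    have e3 : ∑ l ∈ L, (1 - p) ^ (N l ∩ B).card * w' l =
        ∑ l ∈ L.filter (fun l => b ∈ N l), (1 - p) ^ (N l ∩ B).card * w' l +
        ∑ l ∈ L.filter (fun l => b ∉ N l), (1 - p) ^ (N l ∩ B).card * w' l :=
      (Finset.sum_filter_add_sum_filter_not L (fun l => b ∈ N l) _).symm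
    have e4 : ∑ l ∈ L, (1 - p) ^ (N l ∩ insert b B).card * w' l =
        (1 - p) * ∑ l ∈ L.filter (fun l => b ∈ N l), (1 - p) ^ (N l ∩ B).card * w' l +
        ∑ l ∈ L.filter (fun l => b ∉ N l), (1 - p) ^ (N l ∩ B).card * w' l := by
      rw [← Finset.sum_filter_add_sum_filter_not L (fun l => b ∈ N l), Finset.mul_sum]
      congr 1
      · refine Finset.sum_congr rfl fun l hl => ?_
        have hbl := (Finset.mem_filter.1 hl).2
        have : N l ∩ insert b B = insert b (N l ∩ B) := by
          ext x
          simp only [Finset.mem_inter, Finset.mem_insert]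
          constructor
          · rintro ⟨h1, h2 | h2⟩
            · exact Or.inl h2
            · exact Or.inr ⟨h1, h2⟩
          · rintro (h | h)
            · rw [h]; exact ⟨hbl, Or.inl rfl⟩
            · exact ⟨h.1, Or.inr h.2⟩
        rw [this, Finset.card_insert_of_notMem (fun h => hb (Finset.mem_inter.1 h).2), pow_succ]
        ring
      · refine Finset.sum_congr rfl fun l hl => ?_
        have hbl := (Finset.mem_filter.1 hl).2
        have : N l ∩ insert b B = N l ∩ B := by
          ext x
          simp only [Finset.mem_inter, Finset.mem_insert]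
          constructor
          · rintro ⟨h1, h2 | h2⟩
            · rw [h2] at h1; exact absurd h1 hbl
            · exact ⟨h1, h2⟩
          · rintro ⟨h1, h2⟩
            exact ⟨h1, Or.inr h2⟩
        rw [this]
    have e5 : ∑ c ∈ insert b B, w c = w b + ∑ c ∈ B, w c := Finset.sum_insert hb
    have key : p * v1 + (1 - p) * v2 ≤ p * ∑ b ∈ insert b B, w b +
        ∑ l ∈ L, (1 - p) ^ (N l ∩ insert b B).card * w' l := by
      rw [e4, e5]
      rw [e3] at h2'
      have a1 := mul_le_mul_of_nonneg_left h1' hp0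
      have a2 := mul_le_mul_of_nonneg_left h2' (by linarith : 0 ≤ 1 - p)
      refine (add_le_add a1 a2).trans (le_of_eq ?_)
      ring
    by_cases hc : v1 ≤ v2
    · refine ⟨insert b G1, Finset.insert_subset_insert b hG1, ?_⟩
      rw [← hv1]
      refine le_trans ?_ key
      nlinarith
    · refine ⟨G2, hG2.trans (Finset.subset_insert b B), ?_⟩
      rw [← hv2]
      refine le_trans ?_ key
      nlinarith

/-- A covering family: every `a ∈ A` sees at least `d` members of `B`. -/
theorem exists_cover {α β : Type} [DecidableEq β] (A : Finset α) (B : Finset β)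
    (N : α → Finset β) (hN : ∀ a ∈ A, N a ⊆ B) {d : ℕ} (hd : 1 ≤ d)
    (hNd : ∀ a ∈ A, d ≤ (N a).card) {as bs c : ℝ} (hA : (A.card : ℝ) ≤ as)
    (hB : (B.card : ℝ) ≤ bs) (hc : 0 ≤ c) :
    ∃ G ⊆ B, (∀ a ∈ A, ∃ b ∈ G, b ∈ N a) ∧
      (G.card : ℝ) ≤ c / d * bs + Real.exp (-c) * as := by
  classical
  have hd0 : (0 : ℝ) < d := by exact_mod_cast hd
  have hbs : 0 ≤ bs := le_trans (by positivity) hB
  have has : 0 ≤ as := le_trans (by positivity) hA
  have hne : ∀ a ∈ A, (N a).Nonempty := fun a ha =>
    Finset.card_pos.1 (lt_of_lt_of_le hd (hNd a ha))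
  by_cases hp : c / d ≤ 1
  · have hp0 : 0 ≤ c / d := by positivity
    obtain ⟨G, hG, h⟩ := exists_family hp0 hp (fun _ : β => (1 : ℝ)) N (fun _ => (1 : ℝ)) B A
    let U := A.filter (fun a => Disjoint (N a) G)
    let g : {a // a ∈ U} → β := fun a => (hne a.1 (Finset.mem_filter.1 a.2).1).choose
    have hg : ∀ a : {a // a ∈ U}, g a ∈ N a.1 := fun a =>
      (hne a.1 (Finset.mem_filter.1 a.2).1).choose_spec
    let E := U.attach.image g
    have hEc : E.card ≤ U.card := by
      refine Finset.card_image_le.trans ?_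
      rw [Finset.card_attach]
    have hEB : E ⊆ B := by
      intro b hb
      obtain ⟨a, -, rfl⟩ := Finset.mem_image.1 hb
      exact hN a.1 (Finset.mem_filter.1 a.2).1 (hg a)
    refine ⟨G ∪ E, Finset.union_subset hG hEB, ?_, ?_⟩
    · intro a ha
      by_cases hd' : Disjoint (N a) G
      · have haU : a ∈ U := Finset.mem_filter.2 ⟨ha, hd'⟩
        exact ⟨g ⟨a, haU⟩, Finset.mem_union_right _
          (Finset.mem_image_of_mem _ (Finset.mem_attach _ _)), hg ⟨a, haU⟩⟩
      · rw [Finset.not_disjoint_iff] at hd'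
        obtain ⟨b, hb1, hb2⟩ := hd'
        exact ⟨b, Finset.mem_union_left _ hb2, hb1⟩
    · have h1 : ((G ∪ E).card : ℝ) ≤ G.card + U.card := by
        have := Finset.card_union_le G E
        exact_mod_cast this.trans (Nat.add_le_add_left hEc _)
      have h2 : (G.card : ℝ) + U.card ≤ c / d * B.card +
          ∑ a ∈ A, (1 - c / d) ^ (N a ∩ B).card := by
        simpa [U, Finset.sum_const, nsmul_eq_mul] using h
      have h3 : ∑ a ∈ A, (1 - c / d) ^ (N a ∩ B).card ≤ ∑ _a ∈ A, Real.exp (-c) := by
        refine Finset.sum_le_sum fun a ha => ?_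
        rw [Finset.inter_eq_left.2 (hN a ha)]
        calc (1 - c / d) ^ (N a).card ≤ (1 - c / d) ^ d :=
              pow_le_pow_of_le_one (by linarith) (by linarith) (hNd a ha)
          _ ≤ (Real.exp (-(c / d))) ^ d := by
              refine pow_le_pow_left₀ (by linarith) ?_ d
              have := Real.add_one_le_exp (-(c / d))
              linarith
          _ = Real.exp (-c) := by
              rw [← Real.exp_nat_mul]
              congr 1
              field_simp
      rw [Finset.sum_const, nsmul_eq_mul] at h3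
      calc ((G ∪ E).card : ℝ) ≤ c / d * B.card + A.card * Real.exp (-c) := by linarith
        _ ≤ c / d * bs + Real.exp (-c) * as := by
            rw [mul_comm (A.card : ℝ)]
            exact add_le_add (mul_le_mul_of_nonneg_left hB hp0)
              (mul_le_mul_of_nonneg_left hA (Real.exp_pos _).le)
  · push Not at hp
    refine ⟨B, Finset.Subset.refl _, ?_, ?_⟩
    · intro a ha
      obtain ⟨b, hb⟩ := hne a ha
      exact ⟨b, hN a ha hb, hb⟩
    · have h1 : (B.card : ℝ) ≤ c / d * bs := by nlinarith
      have h2 : 0 ≤ Real.exp (-c) * as := by positivity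
      linarith

end Pool.Agent.T2H14.U
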