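import Pool.Agent.T2H14.U.Words
import Pool.Agent.T2H14.U.Samp

/-!
# Random patterns with two levels of letters
-/

set_option autoImplicit false

namespace Pool.Agent.T2H14.U

open Finset

theorem dn_univ {ι P : Type} [Fintype ι] [Fintype P] [DecidableEq ι] [Nonempty P] :
    dn (Finset.univ : Finset (ι → P)) = 1 := by
  unfold dn
  have hP : (0 : ℝ) < Fintype.card P := by exact_mod_cast Fintype.card_pos
  rw [Finset.card_univ, Fintype.card_fun]
  push_cast
  exact div_self (by positivity)

theorem dn_fst {ι P Q : Type} [Fintype ι] [Fintype P] [Fintype Q] [DecidableEq P] [DecidableEq Q]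
    [DecidableEq ι] [Nonempty Q] (A : Finset (ι → P)) :
    dn (Finset.univ.filter (fun g : ι → P × Q => (Prod.fst ∘ g) ∈ A)) = dn A := by
  have h := dn_prod A (Finset.univ : Finset (ι → Q))
  rw [dn_univ, mul_one] at h
  rw [← h]
  congr 1
  refine Finset.filter_congr fun g _ => ?_
  simp

theorem dn_mono {ι P : Type} [Fintype ι] [Fintype P] {A B : Finset (ι → P)} (h : A ⊆ B) :
    dn A ≤ dn B := by
  unfold dn
  have : (A.card : ℝ) ≤ B.card := by exact_mod_cast Finset.card_le_card h
  gcongr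

theorem dn_union {ι P : Type} [Fintype ι] [Fintype P] [DecidableEq (ι → P)]
    (A B : Finset (ι → P)) : dn (A ∪ B) ≤ dn A + dn B := by
  unfold dn
  rw [← add_div]
  have : ((A ∪ B).card : ℝ) ≤ A.card + B.card := by exact_mod_cast Finset.card_union_le A B
  gcongr

theorem dn_le_iff {ι P : Type} [Fintype ι] [Fintype P] [Nonempty P] {A : Finset (ι → P)} {x : ℝ} :
    dn A ≤ x ↔ (A.card : ℝ) ≤ x * (Fintype.card P : ℝ) ^ Fintype.card ι := by
  unfold dn
  have hP : (0 : ℝ) < Fintype.card P := by exact_mod_cast Fintype.card_pos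
  rw [div_le_iff₀ (by positivity)]

/-- the random pattern -/
theorem den_base {k t N1 N2 : ℕ} (ht : 2 ≤ t) (htk : t < k) (hN1 : 1 ≤ N1) (hN2 : 1 ≤ N2) :
    Den k t ((((k : ℝ) - t) * Real.log N1 + Real.log (k.choose t) + 1) / k.choose t +
      (k.choose 2 : ℝ) / N1 / k.choose t *
        (((k : ℝ) - t) * Real.log ((N1 : ℝ) * N2) + Real.log (k.choose t) + 1) +
      (t.choose 2 : ℝ) / ((N1 : ℝ) * N2)) := by
  classical
  have : NeZero N1 := ⟨by omega⟩
  have : NeZero N2 := ⟨by omega⟩
  have hd : 0 < k.choose t := Nat.choose_pos htk.le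
  have hdr : (0 : ℝ) < k.choose t := by exact_mod_cast hd
  have hd1 : (1 : ℝ) ≤ k.choose t := by exact_mod_cast hd
  have hN1r : (1 : ℝ) ≤ N1 := by exact_mod_cast hN1
  have hN2r : (1 : ℝ) ≤ N2 := by exact_mod_cast hN2
  have hkt : (t : ℝ) < k := by exact_mod_cast htk
  have hlogd : 0 ≤ Real.log (k.choose t) := Real.log_nonneg hd1
  have hkR : (k : ℝ) - t = ((k - t : ℕ) : ℝ) := by
    rw [Nat.cast_sub htk.le]
  -- first level
  obtain ⟨c1, hc1⟩ : ∃ c1 : ℝ, c1 = ((k : ℝ) - t) * Real.log N1 + Real.log (k.choose t) :=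
    ⟨_, rfl⟩
  have hc1n : 0 ≤ c1 := by
    rw [hc1]
    have := Real.log_nonneg hN1r
    have h2 : 0 ≤ (k : ℝ) - t := by linarith
    positivity
  obtain ⟨G1, -, hG1c, hG1⟩ := exists_cover
    (A := (Finset.univ : Finset (Fin k → Fin N1)).filter (fun f => Function.Injective f))
    (B := (Finset.univ : Finset (Fin t → Fin N1))) (N := subws t) (fun _ _ => Finset.subset_univ _)
    (d := k.choose t) hd (fun f hf => (card_subws (Finset.mem_filter.1 hf).2).ge)
    (as := (N1 : ℝ) ^ k) (bs := (N1 : ℝ) ^ t) (c := c1)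
    (by
      have : ((Finset.univ : Finset (Fin k → Fin N1)).filter
          (fun f => Function.Injective f)).card ≤ N1 ^ k := by
        refine (Finset.card_filter_le _ _).trans ?_
        rw [Finset.card_univ, Fintype.card_fun, Fintype.card_fin, Fintype.card_fin]
      exact_mod_cast this)
    (by
      rw [Finset.card_univ, Fintype.card_fun, Fintype.card_fin, Fintype.card_fin]
      push_cast; exact le_refl _)
    hc1n
  have hdn1 : dn G1 ≤ (c1 + 1) / k.choose t := by
    rw [dn_le_iff, Fintype.card_fin, Fintype.card_fin]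
    refine hG1.trans (le_of_eq ?_)
    have e1 : Real.exp (-c1) * (N1 : ℝ) ^ k = (N1 : ℝ) ^ t / k.choose t := by
      rw [hc1, neg_add, Real.exp_add, Real.exp_neg (Real.log _), Real.exp_log hdr, hkR,
        Real.exp_neg, Real.exp_nat_mul, Real.exp_log (by linarith)]
      have : (N1 : ℝ) ^ k = (N1 : ℝ) ^ (k - t) * (N1 : ℝ) ^ t := by
        rw [← pow_add]; congr 1; omega
      rw [this]
      have h0 : (N1 : ℝ) ^ (k - t) ≠ 0 := by positivity
      field_simp
    rw [e1]
    ring
  -- second level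
  let Pt := Fin N1 × Fin N2
  have hcP : (Fintype.card Pt : ℝ) = (N1 : ℝ) * N2 := by
    simp [Pt, Fintype.card_prod]
  obtain ⟨c2, hc2⟩ : ∃ c2 : ℝ, c2 = ((k : ℝ) - t) * Real.log ((N1 : ℝ) * N2) +
    Real.log (k.choose t) := ⟨_, rfl⟩
  have hN12 : (1 : ℝ) ≤ (N1 : ℝ) * N2 := by nlinarith
  have hc2n : 0 ≤ c2 := by
    rw [hc2]
    have := Real.log_nonneg hN12
    have h2 : 0 ≤ (k : ℝ) - t := by linarith
    positivity
  let B2 : Finset (Fin t → Pt) :=
    Finset.univ.filter (fun g => (Prod.fst ∘ g) ∈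
      (Finset.univ.filter (fun a : Fin t → Fin N1 => ¬ Function.Injective a)))
  let A2' : Finset (Fin k → Pt) :=
    Finset.univ.filter (fun g => (Prod.fst ∘ g) ∈
      (Finset.univ.filter (fun a : Fin k → Fin N1 => ¬ Function.Injective a)))
  let A2 : Finset (Fin k → Pt) := A2'.filter (fun f => Function.Injective f)
  have hA2 : (A2.card : ℝ) ≤ (k.choose 2 : ℝ) / N1 * ((N1 : ℝ) * N2) ^ k := by
    have h1 : dn A2 ≤ (k.choose 2 : ℝ) / N1 := by
      refine (dn_mono (Finset.filter_subset _ _)).trans ?_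
      rw [dn_fst]
      have := dn_noninj (P := Fin N1) k
      rwa [Fintype.card_fin] at this
    rw [dn_le_iff, hcP, Fintype.card_fin] at h1
    exact h1
  have hB2 : (B2.card : ℝ) ≤ (t.choose 2 : ℝ) / N1 * ((N1 : ℝ) * N2) ^ t := by
    have h1 : dn B2 ≤ (t.choose 2 : ℝ) / N1 := by
      rw [dn_fst]
      have := dn_noninj (P := Fin N1) t
      rwa [Fintype.card_fin] at this
    rw [dn_le_iff, hcP, Fintype.card_fin] at h1
    exact h1
  have hd2 : 0 < (k - 2).choose (t - 2) := Nat.choose_pos (by omega)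
  have hd2r : (0 : ℝ) < (k - 2).choose (t - 2) := by exact_mod_cast hd2
  obtain ⟨G2, -, hG2c, hG2⟩ := exists_cover (A := A2) (B := B2) (N := fun f => subws t f ∩ B2)
    (fun _ _ => Finset.inter_subset_right) (d := (k - 2).choose (t - 2)) hd2
    (fun f hf => by
      obtain ⟨hf1, hf2⟩ := Finset.mem_filter.1 hf
      have hf3 := (Finset.mem_filter.1 (Finset.mem_filter.1 hf1).2).2
      rw [Function.Injective] at hf3
      push Not at hf3
      obtain ⟨i, j, hij, hne⟩ := hf3
      refine card_subws_pair ht hf2 hne B2 ?_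
      rintro e he ⟨a, ha⟩ ⟨b, hb⟩
      rw [Finset.mem_filter]
      refine ⟨Finset.mem_univ _, ?_⟩
      rw [Finset.mem_filter]
      refine ⟨Finset.mem_univ _, fun hinj => hne ?_⟩
      have : a = b := hinj (by
        simp only [Function.comp_apply] at hij ⊢
        rw [ha, hb]; exact hij)
      rw [← ha, ← hb, this])
    hA2 hB2 hc2n
  have hdn2 : dn G2 ≤ (k.choose 2 : ℝ) / N1 / k.choose t * (c2 + 1) := by
    rw [dn_le_iff, hcP, Fintype.card_fin]
    refine hG2.trans (le_of_eq ?_)
    have e1 : Real.exp (-c2) * ((N1 : ℝ) * N2) ^ k = ((N1 : ℝ) * N2) ^ t / k.choose t := by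
      rw [hc2, neg_add, Real.exp_add, Real.exp_neg (Real.log (k.choose t : ℝ)),
        Real.exp_log hdr, hkR, Real.exp_neg, Real.exp_nat_mul, Real.exp_log (by linarith)]
      have : ((N1 : ℝ) * N2) ^ k = ((N1 : ℝ) * N2) ^ (k - t) * ((N1 : ℝ) * N2) ^ t := by
        rw [← pow_add]; congr 1; omega
      rw [this]
      have h0 : ((N1 : ℝ) * N2) ^ (k - t) ≠ 0 := by positivity
      field_simp
    have e2 : (t.choose 2 : ℝ) / (k - 2).choose (t - 2) = (k.choose 2 : ℝ) / k.choose t := by
      rw [div_eq_div_iff (ne_of_gt hd2r) (ne_of_gt hdr)]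
      have := Nat.choose_mul (n := k) (k := t) (s := 2) ht
      have h2 : ((k.choose t : ℝ)) * t.choose 2 = k.choose 2 * (k - 2).choose (t - 2) := by
        exact_mod_cast this
      linarith
    calc c2 / ((k - 2).choose (t - 2) : ℝ) * ((t.choose 2 : ℝ) / N1 * ((N1 : ℝ) * N2) ^ t) +
          Real.exp (-c2) * ((k.choose 2 : ℝ) / N1 * ((N1 : ℝ) * N2) ^ k)
        = c2 / N1 * ((N1 : ℝ) * N2) ^ t * ((t.choose 2 : ℝ) / (k - 2).choose (t - 2)) +
          (k.choose 2 : ℝ) / N1 * (Real.exp (-c2) * ((N1 : ℝ) * N2) ^ k) := by ring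
      _ = _ := by rw [e1, e2]; ring
  -- third
  let H1 : Finset (Fin t → Pt) := Finset.univ.filter (fun g => (Prod.fst ∘ g) ∈ G1)
  let H3 : Finset (Fin t → Pt) := Finset.univ.filter (fun g => ¬ Function.Injective g)
  have hH1 : dn H1 ≤ (c1 + 1) / k.choose t := by
    rw [dn_fst]; exact hdn1
  have hH3 : dn H3 ≤ (t.choose 2 : ℝ) / ((N1 : ℝ) * N2) := by
    have := dn_noninj (P := Pt) t
    rwa [hcP] at this
  refine den_of_dn (H1 ∪ G2 ∪ H3) ?_ ?_
  · intro f
    by_cases h1 : Function.Injective (Prod.fst ∘ f)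
    · obtain ⟨b, hb1, hb2⟩ := hG1c (Prod.fst ∘ f) (Finset.mem_filter.2 ⟨Finset.mem_univ _, h1⟩)
      obtain ⟨e, he, heb⟩ := mem_subws hb2
      refine ⟨e, he, Finset.mem_union_left _ (Finset.mem_union_left _ ?_)⟩
      rw [Finset.mem_filter]
      refine ⟨Finset.mem_univ _, ?_⟩
      rw [← Function.comp_assoc, heb]
      exact hb1
    · by_cases h2 : Function.Injective f
      · obtain ⟨b, hb1, hb2⟩ := hG2c f (by
          rw [Finset.mem_filter]
          refine ⟨?_, h2⟩
          rw [Finset.mem_filter]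
          refine ⟨Finset.mem_univ _, ?_⟩
          rw [Finset.mem_filter]
          exact ⟨Finset.mem_univ _, h1⟩)
        obtain ⟨e, he, heb⟩ := mem_subws (Finset.mem_inter.1 hb2).1
        refine ⟨e, he, Finset.mem_union_left _ (Finset.mem_union_right _ ?_)⟩
        rw [heb]; exact hb1
      · rw [Function.Injective] at h2
        push Not at h2
        obtain ⟨i, j, hij, hne⟩ := h2
        -- a set of t positions with i and j
        obtain ⟨S, hS1, hS2, hS3⟩ := Finset.exists_subsuperset_card_eq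
          (Finset.subset_univ ({i, j} : Finset (Fin k)))
          (by rw [Finset.card_pair hne]; exact ht : ({i, j} : Finset (Fin k)).card ≤ t)
          (by rw [Finset.card_univ, Fintype.card_fin]; omega)
        have hr := Finset.range_orderEmbOfFin S hS3
        have hmem : ∀ x ∈ S, ∃ a, S.orderEmbOfFin hS3 a = x := by
          intro x hx
          have : x ∈ Set.range (S.orderEmbOfFin hS3) := by
            rw [hr]; exact_mod_cast hx
          exact this
        obtain ⟨a, ha⟩ := hmem i (hS1 (by simp))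
        obtain ⟨b, hb⟩ := hmem j (hS1 (by simp))
        refine ⟨S.orderEmbOfFin hS3, (S.orderEmbOfFin hS3).strictMono,
          Finset.mem_union_right _ ?_⟩
        rw [Finset.mem_filter]
        refine ⟨Finset.mem_univ _, fun hinj => hne ?_⟩
        have : a = b := hinj (by
          simp only [Function.comp_apply]
          rw [ha, hb]; exact hij)
        rw [← ha, ← hb, this]
  · refine (dn_union _ _).trans ?_
    refine (add_le_add (dn_union _ _) hH3).trans ?_
    refine (add_le_add_left (add_le_add hH1 hdn2) _).trans (le_of_eq ?_)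
    rw [hc1, hc2]

end Pool.Agent.T2H14.U
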