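import Pool.Agent.T2H14.U.Rec

/-!
# The numbers
-/

set_option autoImplicit false

namespace Pool.Agent.T2H14.U

open Finset

theorem choose_ratio (n1 n0 r : ℕ) :
    n1.choose r * (n0 + 1 - r) ^ r ≤ n1 ^ r * n0.choose r := by
  calc n1.choose r * (n0 + 1 - r) ^ r ≤ n1.choose r * n0.descFactorial r :=
        Nat.mul_le_mul_left _ (Nat.pow_sub_le_descFactorial n0 r)
    _ = n1.descFactorial r * n0.choose r := by
        rw [Nat.descFactorial_eq_factorial_mul_choose, Nat.descFactorial_eq_factorial_mul_choose]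
        ring
    _ ≤ n1 ^ r * n0.choose r := Nat.mul_le_mul_right _ (Nat.descFactorial_le_pow n1 r)

theorem four_le (R : ℕ) : 4 * R ≤ (R + 1) ^ 2 := by
  cases R with
  | zero => simp
  | succ r => nlinarith [Nat.zero_le (r * r)]

theorem log_ge_one {k : ℕ} (hk : 3 ≤ k) : 1 ≤ Real.log k := by
  have hk' : (3 : ℝ) ≤ k := by exact_mod_cast hk
  rw [Real.le_log_iff_exp_le (by linarith)]
  have := Real.exp_one_lt_d9
  linarith

theorem den_num {k t : ℕ} (ht : 2 ≤ t) (htk : t < k) :
    Den k t (8 * ((k : ℝ) - t) * Real.log k / k.choose t) := by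
  have hk3 : 3 ≤ k := by omega
  have hk3r : (3 : ℝ) ≤ k := by exact_mod_cast hk3
  have hL := log_ge_one hk3
  have hkt : (t : ℝ) + 1 ≤ k := by exact_mod_cast htk
  have ht2 : (2 : ℝ) ≤ t := by exact_mod_cast ht
  obtain ⟨R, hR⟩ : ∃ R : ℝ, R = (k : ℝ) - t := ⟨_, rfl⟩
  obtain ⟨L, hLd⟩ : ∃ L : ℝ, L = Real.log k := ⟨_, rfl⟩
  have hR1 : 1 ≤ R := by rw [hR]; linarith
  have hd : 0 < k.choose t := Nat.choose_pos htk.le
  have hdr : (0 : ℝ) < k.choose t := by exact_mod_cast hd
  have hk0 : (0 : ℝ) < k := by linarith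
  have hN1 : 1 ≤ k ^ 3 := Nat.one_le_pow _ _ (by omega)
  have hN2 : 1 ≤ 2 ^ k := Nat.one_le_pow _ _ (by omega)
  refine (den_base ht htk hN1 hN2).mono ?_
  push_cast
  rw [← hR]
  have hlogN1 : Real.log ((k : ℝ) ^ 3) = 3 * L := by rw [Real.log_pow, hLd]; norm_num
  have hlogN : Real.log ((k : ℝ) ^ 3 * 2 ^ k) = 3 * L + k * Real.log 2 := by
    rw [Real.log_mul (by positivity) (by positivity), hlogN1, Real.log_pow]
  have hlogd : Real.log (k.choose t) ≤ R * L := by
    have h1 : k.choose t ≤ k ^ (k - t) := by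
      rw [← Nat.choose_symm htk.le]
      exact Nat.choose_le_pow _ _
    have h2 : (k.choose t : ℝ) ≤ (k : ℝ) ^ (k - t) := by exact_mod_cast h1
    calc Real.log (k.choose t) ≤ Real.log ((k : ℝ) ^ (k - t)) := Real.log_le_log hdr h2
      _ = R * L := by
          rw [Real.log_pow, Nat.cast_sub htk.le, hR, hLd]
  have hLk : L ≤ k := by
    rw [hLd]
    have := Real.log_le_sub_one_of_pos hk0
    linarith
  have hlog2 : Real.log 2 ≤ 0.7 := by
    have := Real.log_two_lt_d9
    linarith
  have hlog20 : 0 ≤ Real.log 2 := Real.log_nonneg (by norm_num)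
  have hd2 : (k.choose t : ℝ) ≤ 2 ^ k := by exact_mod_cast Nat.choose_le_two_pow k t
  have hc2 : ∀ m : ℕ, (m.choose 2 : ℝ) ≤ (m : ℝ) ^ 2 / 2 := by
    intro m
    rw [Nat.cast_choose_two]
    nlinarith [(Nat.cast_nonneg m : (0 : ℝ) ≤ m)]
  rw [hlogN1, hlogN, ← hLd]
  have hL1 : 1 ≤ L := by rw [hLd]; exact hL
  -- first term
  have t1 : (R * (3 * L) + Real.log (k.choose t) + 1) / (k.choose t : ℝ) ≤
      (4 * R * L + 1) / k.choose t := by
    gcongr
    linarith
  -- second term
  have t2 : (k.choose 2 : ℝ) / (k : ℝ) ^ 3 / (k.choose t : ℝ) *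
      (R * (3 * L + k * Real.log 2) + Real.log (k.choose t) + 1) ≤ (2.6 * R) / k.choose t := by
    have h1 : (k.choose 2 : ℝ) / (k : ℝ) ^ 3 ≤ 1 / (2 * k) := by
      rw [div_le_div_iff₀ (by positivity) (by positivity)]
      nlinarith [hc2 k, pow_pos hk0 2]
    have h2 : R * (3 * L + k * Real.log 2) + Real.log (k.choose t) + 1 ≤
        4 * R * L + R * (k * 0.7) + 1 := by
      have : R * (k * Real.log 2) ≤ R * (k * 0.7) := by gcongr
      nlinarith
    have h3 : 0 ≤ R * (3 * L + k * Real.log 2) + Real.log (k.choose t) + 1 := by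
      have h4 : 0 ≤ Real.log (k.choose t : ℝ) := Real.log_nonneg (by exact_mod_cast hd)
      positivity
    rw [div_mul_eq_mul_div]
    refine div_le_div_of_nonneg_right ?_ hdr.le
    calc (k.choose 2 : ℝ) / (k : ℝ) ^ 3 *
          (R * (3 * L + k * Real.log 2) + Real.log (k.choose t) + 1)
        ≤ 1 / (2 * k) * (4 * R * L + R * (k * 0.7) + 1) :=
          mul_le_mul h1 h2 h3 (by positivity)
      _ = (2 * R * (L / k) + 0.35 * R + 1 / (2 * k)) := by field_simp; ring
      _ ≤ 2 * R * 1 + 0.35 * R + 0.2 * R := by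
          have h5 : L / k ≤ 1 := by rw [div_le_one hk0]; exact hLk
          have h6 : 1 / (2 * (k : ℝ)) ≤ 0.2 * R := by
            rw [div_le_iff₀ (by positivity)]
            nlinarith
          have h7 : 2 * R * (L / k) ≤ 2 * R * 1 := by
            apply mul_le_mul_of_nonneg_left h5; positivity
          linarith
      _ ≤ 2.6 * R := by linarith
  -- third term
  have t3 : (t.choose 2 : ℝ) / ((k : ℝ) ^ 3 * 2 ^ k) ≤ (0.4 * R) / k.choose t := by
    rw [div_le_div_iff₀ (by positivity) hdr]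
    have h1 : (t.choose 2 : ℝ) ≤ (k : ℝ) ^ 2 / 2 := by
      refine (hc2 t).trans ?_
      have : (t : ℝ) ≤ k := by linarith
      gcongr
    have h2 : (k : ℝ) ^ 2 / 2 ≤ 0.4 * R * (k : ℝ) ^ 3 := by
      have h3 : (k : ℝ) ^ 2 * 3 ≤ (k : ℝ) ^ 2 * (R * k) := by
        gcongr; nlinarith
      have h4 : 0.4 * R * (k : ℝ) ^ 3 = 0.4 * ((k : ℝ) ^ 2 * (R * k)) := by ring
      rw [h4]
      have := pow_pos hk0 2
      linarith
    calc (t.choose 2 : ℝ) * k.choose t ≤ ((k : ℝ) ^ 2 / 2) * 2 ^ k := by gcongr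
      _ ≤ (0.4 * R * (k : ℝ) ^ 3) * 2 ^ k := by gcongr
      _ = _ := by ring
  refine (add_le_add (add_le_add t1 t2) t3).trans ?_
  rw [← add_div, ← add_div]
  refine div_le_div_of_nonneg_right ?_ hdr.le
  nlinarith

/-- small gap: `R` and all `k` -/
theorem den_gap {R : ℕ} (hR : 1 ≤ R) (k : ℕ) (hk : R + 2 ≤ k) :
    Den k (k - R) (48 * R * Real.log ((R : ℝ) + 1) / k.choose R) := by
  induction k using Nat.strong_induction_on with
  | _ k ih =>
  have hRr : (1 : ℝ) ≤ R := by exact_mod_cast hR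
  have hdr : (0 : ℝ) < k.choose R := by exact_mod_cast Nat.choose_pos (by omega : R ≤ k)
  have hlogR : 0 < Real.log ((R : ℝ) + 1) := Real.log_pos (by linarith)
  by_cases hkR : k < 16 * R ^ 2
  · have h1 := den_num (k := k) (t := k - R) (by omega) (by omega)
    refine h1.mono ?_
    rw [Nat.choose_symm (by omega : R ≤ k), Nat.cast_sub (by omega : R ≤ k)]
    refine div_le_div_of_nonneg_right ?_ hdr.le
    have h2 : Real.log k ≤ 4 * Real.log ((R : ℝ) + 1) := by
      have h3 : (k : ℝ) ≤ ((R : ℝ) + 1) ^ 4 := by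
        have : k ≤ (R + 1) ^ 4 := by
          have h5 := four_le R
          have h6 : 16 * R ^ 2 ≤ (R + 1) ^ 4 := by
            calc 16 * R ^ 2 = (4 * R) ^ 2 := by ring
              _ ≤ ((R + 1) ^ 2) ^ 2 := Nat.pow_le_pow_left h5 2
              _ = (R + 1) ^ 4 := by ring
          omega
        exact_mod_cast this
      calc Real.log k ≤ Real.log (((R : ℝ) + 1) ^ 4) := by
            apply Real.log_le_log
            · have : 0 < k := by omega
              exact_mod_cast this
            · exact h3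
        _ = 4 * Real.log ((R : ℝ) + 1) := by rw [Real.log_pow]; norm_num
    have h4 : (k : ℝ) - ((k : ℝ) - R) = R := by ring
    rw [h4]
    nlinarith [mul_le_mul_of_nonneg_left h2 (by linarith : (0 : ℝ) ≤ R), mul_pos (by linarith : (0:ℝ) < R) hlogR]
  · push Not at hkR
    obtain ⟨u, hu⟩ : ∃ u : ℕ, u = k / (4 * R) := ⟨_, rfl⟩
    have hu1 : u * (4 * R) ≤ k := by rw [hu]; exact Nat.div_mul_le_self _ _
    have hu2 : k < (u + 1) * (4 * R) := by
      rw [hu]
      have := Nat.lt_div_mul_add (a := k) (b := 4 * R) (by omega)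
      linarith
    have hu3 : 4 * R ≤ u := by
      rw [hu, Nat.le_div_iff_mul_le (by omega)]
      nlinarith
    have huk : u * 4 ≤ k := by nlinarith
    have hRk : 16 * R ≤ k := by nlinarith
    have h0 := ih u (by omega) (by omega)
    obtain ⟨W, hW⟩ : ∃ W : ℝ, W = 48 * R * Real.log ((R : ℝ) + 1) := ⟨_, rfl⟩
    have hWpos : 0 < W := by rw [hW]; positivity
    rw [← hW] at h0 ⊢
    obtain ⟨c, hc⟩ : ∃ c : ℝ, c = R * Real.log (6 * R) + Real.log 4 := ⟨_, rfl⟩
    have hlog6 : 0 ≤ Real.log (6 * R) := Real.log_nonneg (by linarith)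
    have hc0 : 0 ≤ c := by
      rw [hc]
      have := Real.log_nonneg (by norm_num : (1 : ℝ) ≤ 4)
      positivity
    have hcexp : Real.exp (-c) * (6 * (R : ℝ)) ^ R = 1 / 4 := by
      rw [hc, neg_add, Real.exp_add, Real.exp_neg (Real.log 4), Real.exp_log (by norm_num),
        Real.exp_neg, Real.exp_nat_mul, Real.exp_log (by linarith)]
      have h1 : (6 * (R : ℝ)) ^ R ≠ 0 := by positivity
      field_simp
    have hc4 : 4 * c ≤ W := by
      have h1 : c ≤ R * (5 * Real.log ((R : ℝ) + 1)) := by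
        have h2 : Real.log 4 ≤ R * Real.log 4 := by
          have := Real.log_nonneg (by norm_num : (1 : ℝ) ≤ 4)
          nlinarith
        have h3 : Real.log (6 * R) + Real.log 4 ≤ 5 * Real.log ((R : ℝ) + 1) := by
          rw [← Real.log_mul (by positivity) (by norm_num)]
          have h4 : 6 * (R : ℝ) * 4 ≤ ((R : ℝ) + 1) ^ 5 := by
            have h5 : 4 * (R : ℝ) ≤ ((R : ℝ) + 1) ^ 2 := by nlinarith [sq_nonneg ((R : ℝ) - 1)]
            have h6 : (8 : ℝ) ≤ ((R : ℝ) + 1) ^ 3 := by
              calc (8 : ℝ) = (1 + 1) ^ 3 := by norm_num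
                _ ≤ ((R : ℝ) + 1) ^ 3 := by gcongr
            calc 6 * (R : ℝ) * 4 ≤ (4 * R) * 8 := by nlinarith
              _ ≤ ((R : ℝ) + 1) ^ 2 * ((R : ℝ) + 1) ^ 3 := by
                  apply mul_le_mul h5 h6 (by norm_num) (by positivity)
              _ = ((R : ℝ) + 1) ^ 5 := by ring
          calc Real.log (6 * (R : ℝ) * 4) ≤ Real.log (((R : ℝ) + 1) ^ 5) :=
                Real.log_le_log (by positivity) h4
            _ = 5 * Real.log ((R : ℝ) + 1) := by rw [Real.log_pow]; norm_num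
        rw [hc]
        nlinarith
      rw [hW]
      nlinarith [mul_pos (by linarith : (0:ℝ) < R) hlogR]
    -- the recursion
    obtain ⟨u', hu'⟩ : ∃ u' : ℕ, u = u' + R := ⟨u - R, by omega⟩
    obtain ⟨s, hs⟩ : ∃ s : ℕ, k = s + R + (u' + R) := ⟨k - (u' + R) - R, by omega⟩
    have hex := Real.exp_pos (-c)
    have h0' : Den (u' + R) u' (W / (u.choose R : ℝ)) := by
      have : u - R = u' := by omega
      rw [this] at h0
      rw [← hu']
      exact h0
    have h1 := den_rec (s := s) h0' hc0 hex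
    have hkt : k - R = s + R + u' := by omega
    rw [hkt, hs]
    refine h1.mono ?_
    rw [← hs]
    -- ratios
    have hur : (0 : ℝ) < u.choose R := by
      exact_mod_cast Nat.choose_pos (by omega : R ≤ u)
    have hsr : (0 : ℝ) < (s + R).choose s := by
      exact_mod_cast Nat.choose_pos (by omega : s ≤ s + R)
    have r1 : (k.choose R : ℝ) ≤ 2 * (s + R).choose s := by
      have h2 := choose_ratio k (s + R) R
      have h3 : s + R + 1 - R = s + 1 := by omega
      rw [h3] at h2
      have h4 : (s + R).choose R = (s + R).choose s := by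
        rw [Nat.choose_symm_add]
      rw [h4] at h2
      have h5 : (k.choose R : ℝ) * ((s : ℝ) + 1) ^ R ≤ (k : ℝ) ^ R * (s + R).choose s := by
        exact_mod_cast h2
      -- k ≤ (s+1) (1 + 1/(2R))
      have h6 : (k : ℝ) ≤ ((s : ℝ) + 1) * (1 + 1 / (2 * R)) := by
        have h7 : 2 * R * k ≤ (s + 1) * (2 * R + 1) := by
          -- s = k - u - R
          have h8 : s + u + R = k := by omega
          have h9 : u * (4 * R) ≤ k := hu1
          have h10 : 16 * (R * R) ≤ k := by nlinarith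
          nlinarith
        have h8 : (2 : ℝ) * R * k ≤ ((s : ℝ) + 1) * (2 * R + 1) := by exact_mod_cast h7
        have h9 : ((s : ℝ) + 1) * (1 + 1 / (2 * R)) = ((s : ℝ) + 1) * (2 * R + 1) / (2 * R) := by
          field_simp
        rw [h9, le_div_iff₀ (by positivity)]
        linarith
      have h7 : (k : ℝ) ^ R ≤ ((s : ℝ) + 1) ^ R * 2 := by
        calc (k : ℝ) ^ R ≤ (((s : ℝ) + 1) * (1 + 1 / (2 * R))) ^ R := by gcongr
          _ = ((s : ℝ) + 1) ^ R * (1 + 1 / (2 * R)) ^ R := by rw [mul_pow]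
          _ ≤ ((s : ℝ) + 1) ^ R * 2 := by
              gcongr
              calc (1 + 1 / (2 * (R : ℝ))) ^ R ≤ (Real.exp (1 / (2 * (R : ℝ)))) ^ R := by
                    gcongr
                    have := Real.add_one_le_exp (1 / (2 * (R : ℝ)))
                    linarith
                _ = Real.exp (1 / 2) := by
                    rw [← Real.exp_nat_mul]
                    congr 1
                    field_simp
                _ ≤ 2 := by
                    have h8 : Real.exp (1 / 2) * Real.exp (1 / 2) = Real.exp 1 := by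
                      rw [← Real.exp_add]; norm_num
                    have h9 := Real.exp_one_lt_d9
                    have h10 := Real.exp_pos (1 / 2 : ℝ)
                    nlinarith
      have h8 : (0 : ℝ) < ((s : ℝ) + 1) ^ R := by positivity
      have h9 : (k.choose R : ℝ) * ((s : ℝ) + 1) ^ R ≤
          (2 * (s + R).choose s) * ((s : ℝ) + 1) ^ R := by
        refine h5.trans ?_
        calc (k : ℝ) ^ R * ((s + R).choose s : ℝ) ≤
              (((s : ℝ) + 1) ^ R * 2) * (s + R).choose s := by gcongr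
          _ = _ := by ring
      exact le_of_mul_le_mul_right h9 h8
    have r2 : (k.choose R : ℝ) ≤ (6 * (R : ℝ)) ^ R * u.choose R := by
      have h2 := choose_ratio k u R
      have h3 : u + 1 - R = u' + 1 := by omega
      rw [h3] at h2
      have h5 : (k.choose R : ℝ) * ((u' : ℝ) + 1) ^ R ≤ (k : ℝ) ^ R * u.choose R := by
        exact_mod_cast h2
      have h6 : (k : ℝ) ≤ ((u' : ℝ) + 1) * (6 * R) := by
        have h7 : k ≤ (u' + 1) * (6 * R) := by
          have h8 : k < (u' + R + 1) * (4 * R) := by rw [← hu']; exact hu2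
          have h9 : 16 * (R * R) ≤ k := by nlinarith
          nlinarith
        exact_mod_cast h7
      have h7 : (k : ℝ) ^ R ≤ ((u' : ℝ) + 1) ^ R * (6 * (R : ℝ)) ^ R := by
        rw [← mul_pow]
        gcongr
      have h8 : (0 : ℝ) < ((u' : ℝ) + 1) ^ R := by positivity
      have h9 : (k.choose R : ℝ) * ((u' : ℝ) + 1) ^ R ≤
          ((6 * (R : ℝ)) ^ R * u.choose R) * ((u' : ℝ) + 1) ^ R := by
        refine h5.trans ?_
        calc (k : ℝ) ^ R * (u.choose R : ℝ) ≤
              (((u' : ℝ) + 1) ^ R * (6 * (R : ℝ)) ^ R) * u.choose R := by gcongr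
          _ = _ := by ring
      exact le_of_mul_le_mul_right h9 h8
    rw [le_div_iff₀ hdr]
    have a1 : c / ((s + R).choose s : ℝ) * k.choose R ≤ 2 * c := by
      rw [div_mul_eq_mul_div, div_le_iff₀ hsr]
      nlinarith
    have a2 : (Real.exp (-c) + Real.exp (-c)) * (W / (u.choose R : ℝ)) * k.choose R ≤ W / 2 := by
      calc (Real.exp (-c) + Real.exp (-c)) * (W / (u.choose R : ℝ)) * k.choose R
          ≤ (Real.exp (-c) + Real.exp (-c)) * (W / (u.choose R : ℝ)) *
              ((6 * (R : ℝ)) ^ R * u.choose R) := by gcongr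
        _ = 2 * W * (Real.exp (-c) * (6 * (R : ℝ)) ^ R) := by field_simp; ring
        _ = W / 2 := by rw [hcexp]; ring
    rw [add_mul]
    linarith

end Pool.Agent.T2H14.U
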