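import Mathlib

/-!
# Words and patterns

A set `H` of words of length `t` over an alphabet `P` is a `(k,t)`-pattern if every word of length
`k` has a subword of length `t` in `H`.  `Den k t x`: there is one of density at most `x`.
-/

set_option autoImplicit false

namespace Pool.Agent.T2H14.U

open Finset

/-- A set of words of length `t` that meets the subwords of every word of length `k`. -/
def IsPat (k t : ℕ) {P : Type} (H : Finset (Fin t → P)) : Prop :=
  ∀ f : Fin k → P, ∃ e : Fin t → Fin k, StrictMono e ∧ f ∘ e ∈ H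

/-- There is a `(k,t)`-pattern of density at most `x`. -/
def Den (k t : ℕ) (x : ℝ) : Prop :=
  ∃ (P : Type) (_ : Fintype P) (_ : DecidableEq P) (_ : Nonempty P) (H : Finset (Fin t → P)),
    IsPat k t H ∧ (H.card : ℝ) ≤ x * (Fintype.card P : ℝ) ^ t

theorem Den.mono {k t : ℕ} {x y : ℝ} (h : Den k t x) (hxy : x ≤ y) : Den k t y := by
  obtain ⟨P, i1, i2, i3, H, h1, h2⟩ := h
  exact ⟨P, i1, i2, i3, H, h1, h2.trans (mul_le_mul_of_nonneg_right hxy (by positivity))⟩

theorem Den.mono_left {k k' t : ℕ} {x : ℝ} (h : Den k t x) (hk : k ≤ k') : Den k' t x := by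
  obtain ⟨P, i1, i2, i3, H, h1, h2⟩ := h
  refine ⟨P, i1, i2, i3, H, fun f => ?_, h2⟩
  obtain ⟨e, he, heH⟩ := h1 (f ∘ Fin.castLE hk)
  exact ⟨Fin.castLE hk ∘ e, (Fin.strictMono_castLE hk).comp he, heH⟩

theorem den_one {k t : ℕ} (h : t ≤ k) : Den k t 1 := by
  refine ⟨Unit, inferInstance, inferInstance, inferInstance, Finset.univ, fun f => ?_, ?_⟩
  · exact ⟨Fin.castLE h, Fin.strictMono_castLE h, Finset.mem_univ _⟩
  · simp

/-- The number of maps whose restriction along an injection is in `G`. -/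
theorem card_restrict {ι κ P : Type} [Fintype ι] [Fintype κ] [Fintype P] [DecidableEq P]
    [DecidableEq ι] [DecidableEq κ]
    (e : ι → κ) (he : Function.Injective e) (G : Finset (ι → P)) :
    (Finset.univ.filter (fun ψ : κ → P => ψ ∘ e ∈ G)).card * Fintype.card P ^ Fintype.card ι =
      G.card * Fintype.card P ^ Fintype.card κ := by
  classical
  let σ : ι ⊕ ↥((Set.range e)ᶜ : Set κ) ≃ κ :=
    ((Equiv.ofInjective e he).sumCongr (Equiv.refl _)).trans (Equiv.Set.sumCompl (Set.range e))
  have hσ : ∀ i : ι, σ (Sum.inl i) = e i := fun i => by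
    simp [σ]
  let τ : (κ → P) ≃ (ι → P) × (↥((Set.range e)ᶜ : Set κ) → P) :=
    (Equiv.arrowCongr σ.symm (Equiv.refl P)).trans (Equiv.sumArrowEquivProdArrow _ _ _)
  have hτ : ∀ ψ : κ → P, (τ ψ).1 = ψ ∘ e := fun ψ => by
    funext i
    simp [τ, Equiv.sumArrowEquivProdArrow, hσ]
  have h1 : (Finset.univ.filter (fun ψ : κ → P => ψ ∘ e ∈ G)).card =
      (G ×ˢ (Finset.univ : Finset (↥((Set.range e)ᶜ : Set κ) → P))).card := by
    refine Finset.card_bij (fun ψ _ => τ ψ) ?_ ?_ ?_
    · intro ψ hψ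
      rw [Finset.mem_filter] at hψ
      rw [Finset.mem_product, hτ]
      exact ⟨hψ.2, Finset.mem_univ _⟩
    · intro ψ _ ψ' _ h
      exact τ.injective h
    · intro b hb
      refine ⟨τ.symm b, ?_, by simp⟩
      rw [Finset.mem_filter, ← hτ, Equiv.apply_symm_apply]
      exact ⟨Finset.mem_univ _, (Finset.mem_product.1 hb).1⟩
  have h2 : Fintype.card ι + Fintype.card ↥((Set.range e)ᶜ : Set κ) = Fintype.card κ := by
    rw [← Fintype.card_sum]
    exact Fintype.card_congr σ
  rw [h1, Finset.card_product, Finset.card_univ, Fintype.card_fun, mul_assoc, ← pow_add, ← h2]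
  congr 2
  ring

/-- density of a set of words -/
noncomputable def dn {ι P : Type} [Fintype ι] [Fintype P] (G : Finset (ι → P)) : ℝ :=
  (G.card : ℝ) / (Fintype.card P : ℝ) ^ Fintype.card ι

theorem dn_nonneg {ι P : Type} [Fintype ι] [Fintype P] (G : Finset (ι → P)) : 0 ≤ dn G := by
  unfold dn; positivity

theorem dn_restrict {ι κ P : Type} [Fintype ι] [Fintype κ] [Fintype P] [DecidableEq P]
    [DecidableEq ι] [DecidableEq κ] [Nonempty P]
    (e : ι → κ) (he : Function.Injective e) (G : Finset (ι → P)) :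
    dn (Finset.univ.filter (fun ψ : κ → P => ψ ∘ e ∈ G)) = dn G := by
  unfold dn
  have hP : (0 : ℝ) < Fintype.card P := by exact_mod_cast Fintype.card_pos
  rw [div_eq_div_iff (by positivity) (by positivity)]
  exact_mod_cast card_restrict e he G

/-- density of a product condition -/
theorem dn_prod {ι P Q : Type} [Fintype ι] [Fintype P] [Fintype Q] [DecidableEq P] [DecidableEq Q]
    [DecidableEq ι] (A : Finset (ι → P)) (B : Finset (ι → Q)) :
    dn (Finset.univ.filter (fun g : ι → P × Q => (Prod.fst ∘ g) ∈ A ∧ (Prod.snd ∘ g) ∈ B)) =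
      dn A * dn B := by
  have h1 : (Finset.univ.filter
      (fun g : ι → P × Q => (Prod.fst ∘ g) ∈ A ∧ (Prod.snd ∘ g) ∈ B)).card =
      (A ×ˢ B).card := by
    refine Finset.card_bij (fun g _ => (Prod.fst ∘ g, Prod.snd ∘ g)) ?_ ?_ ?_
    · intro g hg
      rw [Finset.mem_filter] at hg
      exact Finset.mem_product.2 hg.2
    · intro g _ g' _ h
      rw [Prod.mk.injEq] at h
      funext i
      exact Prod.ext (congrFun h.1 i) (congrFun h.2 i)
    · intro b hb
      rw [Finset.mem_product] at hb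
      exact ⟨fun i => (b.1 i, b.2 i), by
        rw [Finset.mem_filter]; exact ⟨Finset.mem_univ _, hb⟩, rfl⟩
  unfold dn
  rw [h1, Finset.card_product, Fintype.card_prod]
  push_cast
  rw [mul_pow, div_mul_div_comm]

theorem den_of_dn {k t : ℕ} {P : Type} [Fintype P] [DecidableEq P] [Nonempty P]
    (H : Finset (Fin t → P)) (h : IsPat k t H) {x : ℝ} (hx : dn H ≤ x) : Den k t x := by
  refine ⟨P, inferInstance, inferInstance, inferInstance, H, h, ?_⟩
  unfold dn at hx
  rw [Fintype.card_fin] at hx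
  have hP : (0 : ℝ) < Fintype.card P := by exact_mod_cast Fintype.card_pos
  rwa [div_le_iff₀ (by positivity)] at hx

theorem Den.exists_dn {k t : ℕ} {x : ℝ} (h : Den k t x) :
    ∃ (P : Type) (_ : Fintype P) (_ : DecidableEq P) (_ : Nonempty P) (H : Finset (Fin t → P)),
      IsPat k t H ∧ dn H ≤ x := by
  obtain ⟨P, i1, i2, i3, H, h1, h2⟩ := h
  refine ⟨P, i1, i2, i3, H, h1, ?_⟩
  unfold dn
  rw [Fintype.card_fin]
  have hP : (0 : ℝ) < Fintype.card P := by exact_mod_cast Fintype.card_pos
  rwa [div_le_iff₀ (by positivity)]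

/-- Transfer to set systems on `Fin n`. -/
theorem Den.family {k t : ℕ} {x : ℝ} (h : Den k t x) (n : ℕ) :
    ∃ F : Finset (Finset (Fin n)), (∀ Z ∈ F, Z.card = t) ∧
      (∀ Y : Finset (Fin n), Y.card = k → ∃ Z ∈ F, Z ⊆ Y) ∧ (F.card : ℝ) ≤ x * n.choose t := by
  classical
  obtain ⟨P, i1, i2, i3, H, h1, h2⟩ := h
  let F : (Fin n → P) → Finset (Finset (Fin n)) := fun ψ =>
    (Finset.univ : Finset (Finset (Fin n))).filter
      (fun S => ∃ hS : S.card = t, ψ ∘ (S.orderEmbOfFin hS) ∈ H)
  have hcov : ∀ ψ, ∀ Y : Finset (Fin n), Y.card = k → ∃ Z ∈ F ψ, Z ⊆ Y := by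
    intro ψ Y hY
    obtain ⟨e, he, heH⟩ := h1 (ψ ∘ (Y.orderEmbOfFin hY))
    let g : Fin t → Fin n := (Y.orderEmbOfFin hY) ∘ e
    have hg : StrictMono g := (Y.orderEmbOfFin hY).strictMono.comp he
    let Z : Finset (Fin n) := Finset.univ.image g
    have hZ : Z.card = t := by
      rw [Finset.card_image_of_injective _ hg.injective, Finset.card_univ, Fintype.card_fin]
    have hZg : g = Z.orderEmbOfFin hZ :=
      Finset.orderEmbOfFin_unique hZ (fun i => Finset.mem_image_of_mem _ (Finset.mem_univ _)) hg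
    refine ⟨Z, ?_, ?_⟩
    · rw [Finset.mem_filter]
      refine ⟨Finset.mem_univ _, hZ, ?_⟩
      rw [← hZg]
      exact heH
    · intro z hz
      obtain ⟨i, -, rfl⟩ := Finset.mem_image.1 hz
      exact Finset.orderEmbOfFin_mem _ hY _
  -- average
  have hsum : ∑ ψ : Fin n → P, ((F ψ).card : ℝ) ≤
      ∑ _ψ : Fin n → P, x * n.choose t := by
    have e1 : ∑ ψ : Fin n → P, ((F ψ).card : ℝ) =
        ∑ S ∈ Finset.powersetCard t (Finset.univ : Finset (Fin n)),
          ((Finset.univ.filter (fun ψ : Fin n → P => S ∈ F ψ)).card : ℝ) := by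
      have : ∀ ψ : Fin n → P, ((F ψ).card : ℝ) =
          ∑ S ∈ Finset.powersetCard t (Finset.univ : Finset (Fin n)),
            if S ∈ F ψ then (1 : ℝ) else 0 := by
        intro ψ
        rw [Finset.sum_ite_mem, Finset.sum_const, nsmul_eq_mul, mul_one]
        congr 2
        symm
        rw [Finset.inter_eq_right]
        intro S hS
        rw [Finset.mem_filter] at hS
        rw [Finset.mem_powersetCard]
        exact ⟨Finset.subset_univ _, hS.2.1⟩
      simp_rw [this]
      rw [Finset.sum_comm]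
      refine Finset.sum_congr rfl fun S _ => ?_
      rw [Finset.sum_ite, Finset.sum_const_zero, add_zero, Finset.sum_const, nsmul_eq_mul, mul_one]
    rw [e1, Finset.sum_const, Finset.card_univ, Fintype.card_fun, Fintype.card_fin, nsmul_eq_mul]
    have hP : (0 : ℝ) < Fintype.card P := by exact_mod_cast Fintype.card_pos
    have e2 : ∀ S ∈ Finset.powersetCard t (Finset.univ : Finset (Fin n)),
        ((Finset.univ.filter (fun ψ : Fin n → P => S ∈ F ψ)).card : ℝ) ≤
          x * (Fintype.card P : ℝ) ^ n := by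
      intro S hS
      have hSt := (Finset.mem_powersetCard.1 hS).2
      have e3 : (Finset.univ.filter (fun ψ : Fin n → P => S ∈ F ψ)) =
          (Finset.univ.filter (fun ψ : Fin n → P => ψ ∘ (S.orderEmbOfFin hSt) ∈ H)) := by
        refine Finset.filter_congr fun ψ _ => ?_
        rw [Finset.mem_filter]
        exact ⟨fun h => h.2.2, fun h => ⟨Finset.mem_univ _, hSt, h⟩⟩
      rw [e3]
      have h3 := card_restrict (P := P) (S.orderEmbOfFin hSt) (S.orderEmbOfFin hSt).injective H
      rw [Fintype.card_fin, Fintype.card_fin] at h3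
      have h4 : ((Finset.univ.filter
          (fun ψ : Fin n → P => ψ ∘ (S.orderEmbOfFin hSt) ∈ H)).card : ℝ) *
            (Fintype.card P : ℝ) ^ t = H.card * (Fintype.card P : ℝ) ^ n := by exact_mod_cast h3
      have h5 : (0 : ℝ) < (Fintype.card P : ℝ) ^ t := by positivity
      have h6 : ((Finset.univ.filter
          (fun ψ : Fin n → P => ψ ∘ (S.orderEmbOfFin hSt) ∈ H)).card : ℝ) *
            (Fintype.card P : ℝ) ^ t ≤ x * (Fintype.card P : ℝ) ^ n * (Fintype.card P : ℝ) ^ t := by
        rw [h4]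
        calc (H.card : ℝ) * (Fintype.card P : ℝ) ^ n
            ≤ (x * (Fintype.card P : ℝ) ^ t) * (Fintype.card P : ℝ) ^ n :=
              mul_le_mul_of_nonneg_right h2 (by positivity)
          _ = _ := by ring
      exact le_of_mul_le_mul_right h6 h5
    calc ∑ S ∈ Finset.powersetCard t (Finset.univ : Finset (Fin n)),
          ((Finset.univ.filter (fun ψ : Fin n → P => S ∈ F ψ)).card : ℝ)
        ≤ ∑ _S ∈ Finset.powersetCard t (Finset.univ : Finset (Fin n)),
            x * (Fintype.card P : ℝ) ^ n := Finset.sum_le_sum e2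
      _ = _ := by
        rw [Finset.sum_const, Finset.card_powersetCard, Finset.card_univ, Fintype.card_fin,
          nsmul_eq_mul]
        push_cast
        ring
  obtain ⟨ψ, -, hψ⟩ := Finset.exists_le_of_sum_le
    (Finset.univ_nonempty : (Finset.univ : Finset (Fin n → P)).Nonempty) hsum
  exact ⟨F ψ, fun Z hZ => (Finset.mem_filter.1 hZ).2.1, hcov ψ, hψ⟩

end Pool.Agent.T2H14.U
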