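import Pool.Agent.T2H14.U.Base

/-!
# The recursion and the copies
-/

set_option autoImplicit false

namespace Pool.Agent.T2H14.U

open Finset

theorem den_rec {s R u : ℕ} {y c ε : ℝ} (h : Den (u + R) u y) (hc : 0 ≤ c) (hε : 0 < ε) :
    Den (s + R + (u + R)) (s + R + u) (c / (s + R).choose s + (Real.exp (-c) + ε) * y) := by
  classical
  obtain ⟨P, i1, i2, i3, H, hH, hHy⟩ := h.exists_dn
  have hy : 0 ≤ y := (dn_nonneg H).trans hHy
  have hd : 0 < (s + R).choose s := Nat.choose_pos (by omega)
  have hdr : (0 : ℝ) < (s + R).choose s := by exact_mod_cast hd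
  by_cases hp : c / ((s + R).choose s : ℝ) ≤ 1
  swap
  · push Not at hp
    refine (den_one (by omega)).mono ?_
    have := Real.exp_pos (-c)
    nlinarith
  have hp0 : 0 ≤ c / ((s + R).choose s : ℝ) := by positivity
  obtain ⟨N, hN⟩ := exists_nat_gt (((s + R).choose 2 : ℝ) / ε)
  have hN0 : (0 : ℝ) < N := lt_of_le_of_lt (by positivity) hN
  have hN1 : 0 < N := by exact_mod_cast hN0
  have : NeZero N := ⟨by omega⟩
  have hNe : ((s + R).choose 2 : ℝ) / N ≤ ε := by
    rw [div_lt_iff₀ hε] at hN
    rw [div_le_iff₀ hN0]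
    linarith
  obtain ⟨L, hL⟩ : ∃ L : Finset (Fin (s + R) → Fin N), L =
    Finset.univ.filter (fun a => Function.Injective a) := ⟨_, rfl⟩
  obtain ⟨G, -, hG⟩ := exists_family hp0 hp (fun _ : Fin s → Fin N => 1 / (N : ℝ) ^ s)
    (subws s) (fun _ : Fin (s + R) → Fin N => y / (N : ℝ) ^ (s + R)) Finset.univ L
  let Free : Finset (Fin (s + R) → Fin N) :=
    Finset.univ.filter (fun a => ∀ e : Fin s → Fin (s + R), StrictMono e → a ∘ e ∉ G)
  let LF : Finset (Fin (s + R) → Fin N) := L.filter (fun a => Disjoint (subws s a) G)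
  have hFree : dn Free ≤ dn LF + ε := by
    have h1 : Free ⊆ LF ∪ Finset.univ.filter (fun a => ¬ Function.Injective a) := by
      intro a ha
      have ha2 := (Finset.mem_filter.1 ha).2
      rw [Finset.mem_union]
      by_cases hi : Function.Injective a
      · left
        rw [Finset.mem_filter, hL, Finset.mem_filter]
        refine ⟨⟨Finset.mem_univ _, hi⟩, ?_⟩
        rw [Finset.disjoint_left]
        intro b hb hbG
        obtain ⟨e, he, rfl⟩ := mem_subws hb
        exact ha2 e he hbG
      · right
        rw [Finset.mem_filter]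
        exact ⟨Finset.mem_univ _, hi⟩
    refine (dn_mono h1).trans ((dn_union _ _).trans ?_)
    have h2 := dn_noninj (P := Fin N) (s + R)
    rw [Fintype.card_fin] at h2
    linarith
  have hmain : dn G + dn LF * y ≤ c / (s + R).choose s + Real.exp (-c) * y := by
    have e1 : ∑ b ∈ G, 1 / (N : ℝ) ^ s = dn G := by
      unfold dn
      rw [Finset.sum_const, nsmul_eq_mul, Fintype.card_fin, Fintype.card_fin]
      ring
    have e2 : ∑ l ∈ L.filter (fun l => Disjoint (subws s l) G), y / (N : ℝ) ^ (s + R) =
        dn LF * y := by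
      unfold dn
      rw [Finset.sum_const, nsmul_eq_mul, Fintype.card_fin, Fintype.card_fin]
      ring
    have e3 : ∑ b ∈ (Finset.univ : Finset (Fin s → Fin N)), 1 / (N : ℝ) ^ s = 1 := by
      rw [Finset.sum_const, nsmul_eq_mul, Finset.card_univ, Fintype.card_fun, Fintype.card_fin,
        Fintype.card_fin]
      push_cast
      field_simp
    have e4 : ∑ l ∈ L, (1 - c / ((s + R).choose s : ℝ)) ^
        (subws s l ∩ Finset.univ).card * (y / (N : ℝ) ^ (s + R)) ≤ Real.exp (-c) * y := by
      have h1 : ∀ l ∈ L, (1 - c / ((s + R).choose s : ℝ)) ^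
          (subws s l ∩ Finset.univ).card * (y / (N : ℝ) ^ (s + R)) ≤
          Real.exp (-c) * (y / (N : ℝ) ^ (s + R)) := by
        intro l hl
        rw [hL] at hl
        refine mul_le_mul_of_nonneg_right ?_ (by positivity)
        rw [Finset.inter_univ, card_subws (Finset.mem_filter.1 hl).2]
        calc (1 - c / ((s + R).choose s : ℝ)) ^ (s + R).choose s
            ≤ (Real.exp (-(c / ((s + R).choose s : ℝ)))) ^ (s + R).choose s := by
              refine pow_le_pow_left₀ (by linarith) ?_ _
              have := Real.add_one_le_exp (-(c / ((s + R).choose s : ℝ)))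
              linarith
          _ = Real.exp (-c) := by
              rw [← Real.exp_nat_mul]
              congr 1
              field_simp
      refine (Finset.sum_le_sum h1).trans ?_
      rw [Finset.sum_const, nsmul_eq_mul]
      have h2 : (L.card : ℝ) ≤ (N : ℝ) ^ (s + R) := by
        have : L.card ≤ N ^ (s + R) := by
          rw [hL]
          refine (Finset.card_filter_le _ _).trans ?_
          rw [Finset.card_univ, Fintype.card_fun, Fintype.card_fin, Fintype.card_fin]
        exact_mod_cast this
      calc (L.card : ℝ) * (Real.exp (-c) * (y / (N : ℝ) ^ (s + R)))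
          ≤ (N : ℝ) ^ (s + R) * (Real.exp (-c) * (y / (N : ℝ) ^ (s + R))) :=
            mul_le_mul_of_nonneg_right h2 (by positivity)
        _ = Real.exp (-c) * y := by field_simp
    rw [e1, e2, e3, mul_one] at hG
    linarith
  -- the pattern
  let e1 : Fin s → Fin (s + R + u) := Fin.castLE (by omega)
  let e2 : Fin (s + R) → Fin (s + R + u) := Fin.castLE (by omega)
  let e3 : Fin u → Fin (s + R + u) := Fin.natAdd (s + R)
  let H1 : Finset (Fin (s + R + u) → Fin N × P) := Finset.univ.filter
    (fun g => (Prod.fst ∘ g) ∈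
      (Finset.univ.filter (fun a : Fin (s + R + u) → Fin N => a ∘ e1 ∈ G)))
  let H2 : Finset (Fin (s + R + u) → Fin N × P) := Finset.univ.filter
    (fun g => (Prod.fst ∘ g) ∈
      (Finset.univ.filter (fun a : Fin (s + R + u) → Fin N => a ∘ e2 ∈ Free)) ∧
      (Prod.snd ∘ g) ∈
      (Finset.univ.filter (fun b : Fin (s + R + u) → P => b ∘ e3 ∈ H)))
  have hH1 : dn H1 = dn G := by
    rw [dn_fst]
    exact dn_restrict e1 (Fin.castLE_injective _) G
  have hH2 : dn H2 = dn Free * dn H := by
    rw [dn_prod]
    congr 1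
    · exact dn_restrict e2 (Fin.castLE_injective _) Free
    · exact dn_restrict e3 (Fin.natAdd_injective _ _) H
  refine den_of_dn (H1 ∪ H2) ?_ ?_
  · intro f
    let a : Fin (s + R) → Fin N := fun i => (f (Fin.castLE (by omega) i)).1
    by_cases ha : a ∈ Free
    · let b : Fin (u + R) → P := fun i => (f (Fin.natAdd (s + R) i)).2
      obtain ⟨e0, he0, hb⟩ := hH b
      let e : Fin (s + R + u) → Fin (s + R + (u + R)) := fun i =>
        if h : i.1 < s + R then ⟨i.1, by omega⟩
        else ⟨s + R + (e0 ⟨i.1 - (s + R), by have := i.2; omega⟩).1, by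
          have := (e0 ⟨i.1 - (s + R), by have := i.2; omega⟩).2; omega⟩
      refine ⟨e, ?_, Finset.mem_union_right _ ?_⟩
      · intro i j hij
        rw [Fin.lt_def] at hij ⊢
        by_cases hi : i.1 < s + R
        · by_cases hj : j.1 < s + R
          · simp only [e, dif_pos hi, dif_pos hj]; exact hij
          · simp only [e, dif_pos hi, dif_neg hj]; omega
        · have hj : ¬ j.1 < s + R := by omega
          simp only [e, dif_neg hi, dif_neg hj]
          have h1 : (⟨i.1 - (s + R), by have := i.2; omega⟩ : Fin u) <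
              ⟨j.1 - (s + R), by have := j.2; omega⟩ := by
            rw [Fin.lt_def]
            change i.1 - (s + R) < j.1 - (s + R)
            omega
          have h2 := he0 h1
          rw [Fin.lt_def] at h2
          omega
      · rw [Finset.mem_filter]
        refine ⟨Finset.mem_univ _, ?_, ?_⟩
        · rw [Finset.mem_filter]
          refine ⟨Finset.mem_univ _, ?_⟩
          have : (Prod.fst ∘ f ∘ e) ∘ e2 = a := by
            funext i
            simp only [Function.comp_apply, a, e, e2]
            have hi : (Fin.castLE (by omega : s + R ≤ s + R + u) i).1 < s + R := i.2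
            rw [dif_pos hi]
            rfl
          rw [this]; exact ha
        · rw [Finset.mem_filter]
          refine ⟨Finset.mem_univ _, ?_⟩
          have : (Prod.snd ∘ f ∘ e) ∘ e3 = b ∘ e0 := by
            funext i
            simp only [Function.comp_apply, b, e, e3]
            have hi : ¬ (Fin.natAdd (s + R) i).1 < s + R := by
              rw [Fin.val_natAdd]; omega
            rw [dif_neg hi]
            have h3 : (⟨(Fin.natAdd (s + R) i).1 - (s + R), by
                have := (Fin.natAdd (s + R) i).2; omega⟩ : Fin u) = i := by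
              apply Fin.ext
              simp [Fin.val_natAdd]
            congr 1
            congr 1
            apply Fin.ext
            exact congrArg (fun z : Fin u => s + R + (e0 z).1) h3
          rw [this]; exact hb
    · have ha' : ∃ e : Fin s → Fin (s + R), StrictMono e ∧ a ∘ e ∈ G := by
        by_contra hcon
        push Not at hcon
        exact ha (Finset.mem_filter.2 ⟨Finset.mem_univ _, hcon⟩)
      obtain ⟨e0, he0, hb⟩ := ha'
      let e : Fin (s + R + u) → Fin (s + R + (u + R)) := fun i =>
        if h : i.1 < s then ⟨(e0 ⟨i.1, h⟩).1, by have := (e0 ⟨i.1, h⟩).2; omega⟩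
        else ⟨i.1 + R, by have := i.2; omega⟩
      refine ⟨e, ?_, Finset.mem_union_left _ ?_⟩
      · intro i j hij
        rw [Fin.lt_def] at hij ⊢
        by_cases hi : i.1 < s
        · by_cases hj : j.1 < s
          · simp only [e, dif_pos hi, dif_pos hj]
            have h1 : (⟨i.1, hi⟩ : Fin s) < ⟨j.1, hj⟩ := hij
            exact he0 h1
          · simp only [e, dif_pos hi, dif_neg hj]
            have := (e0 ⟨i.1, hi⟩).2
            omega
        · have hj : ¬ j.1 < s := by omega
          simp only [e, dif_neg hi, dif_neg hj]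
          omega
      · rw [Finset.mem_filter]
        refine ⟨Finset.mem_univ _, ?_⟩
        rw [Finset.mem_filter]
        refine ⟨Finset.mem_univ _, ?_⟩
        have : (Prod.fst ∘ f ∘ e) ∘ e1 = a ∘ e0 := by
          funext i
          simp only [Function.comp_apply, a, e, e1]
          have hi : (Fin.castLE (by omega : s ≤ s + R + u) i).1 < s := i.2
          rw [dif_pos hi]
          rfl
        rw [this]; exact hb
  · refine (dn_union _ _).trans ?_
    rw [hH1, hH2]
    have h1 : dn Free * dn H ≤ (dn LF + ε) * y :=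
      mul_le_mul hFree hHy (dn_nonneg _) (add_nonneg (dn_nonneg _) hε.le)
    calc dn G + dn Free * dn H ≤ dn G + (dn LF + ε) * y := by linarith
      _ = (dn G + dn LF * y) + ε * y := by ring
      _ ≤ (c / (s + R).choose s + Real.exp (-c) * y) + ε * y := by linarith
      _ = _ := by ring

theorem den_copies {k t m : ℕ} {x : ℝ} (h : Den k t x) (ht : 1 ≤ t) (hm : 1 ≤ m) :
    Den (m * (k - 1) + 1) t (x / (m : ℝ) ^ (t - 1)) := by
  classical
  obtain ⟨P, i1, i2, i3, H, hH, hHx⟩ := h.exists_dn
  have : NeZero m := ⟨by omega⟩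
  have hm0 : (0 : ℝ) < m := by exact_mod_cast hm
  let C : Finset (Fin t → Fin m) := Finset.univ.image (fun i _ => i)
  have hC : dn C ≤ 1 / (m : ℝ) ^ (t - 1) := by
    rw [dn_le_iff, Fintype.card_fin, Fintype.card_fin]
    have h1 : (C.card : ℝ) ≤ m := by
      have : C.card ≤ m := by
        refine Finset.card_image_le.trans ?_
        rw [Finset.card_univ, Fintype.card_fin]
      exact_mod_cast this
    refine h1.trans (le_of_eq ?_)
    obtain ⟨s, rfl⟩ : ∃ s, t = s + 1 := ⟨t - 1, by omega⟩
    rw [Nat.add_sub_cancel, pow_succ]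
    field_simp
  refine den_of_dn (Finset.univ.filter
    (fun g : Fin t → P × Fin m => (Prod.fst ∘ g) ∈ H ∧ (Prod.snd ∘ g) ∈ C)) ?_ ?_
  · intro f
    obtain ⟨i, -, hi⟩ := Finset.exists_lt_card_fiber_of_mul_lt_card_of_maps_to
      (s := (Finset.univ : Finset (Fin (m * (k - 1) + 1)))) (t := (Finset.univ : Finset (Fin m)))
      (f := fun j => (f j).2) (n := k - 1) (fun _ _ => Finset.mem_univ _) (by
        rw [Finset.card_univ, Fintype.card_fin, Finset.card_univ, Fintype.card_fin]
        omega)
    obtain ⟨Y, hY1, hY2⟩ := Finset.exists_subset_card_eq (n := k) (s := Finset.univ.filter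
      (fun j => (f j).2 = i)) (by omega)
    obtain ⟨e0, he0, hb⟩ := hH (fun j => (f (Y.orderEmbOfFin hY2 j)).1)
    refine ⟨Y.orderEmbOfFin hY2 ∘ e0, (Y.orderEmbOfFin hY2).strictMono.comp he0, ?_⟩
    rw [Finset.mem_filter]
    refine ⟨Finset.mem_univ _, hb, ?_⟩
    rw [Finset.mem_image]
    refine ⟨i, Finset.mem_univ _, ?_⟩
    funext j
    have h1 := hY1 (Finset.orderEmbOfFin_mem Y hY2 (e0 j))
    exact (Finset.mem_filter.1 h1).2.symm
  · rw [dn_prod]
    calc dn H * dn C ≤ x * (1 / (m : ℝ) ^ (t - 1)) :=
          mul_le_mul hHx hC (dn_nonneg _) ((dn_nonneg _).trans hHx)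
      _ = _ := by ring

end Pool.Agent.T2H14.U
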