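import Pool.Agent.T2H14.U.Pat

/-!
# Subwords of a word with distinct letters, and words with equal letters
-/

set_option autoImplicit false

namespace Pool.Agent.T2H14.U

open Finset

variable {P : Type}

/-- the subword of `f` with the positions `S` -/
def subw {k t : ℕ} (f : Fin k → P) (S : {S : Finset (Fin k) // S.card = t}) : Fin t → P :=
  f ∘ (S.1.orderEmbOfFin S.2)

theorem subw_injective {k t : ℕ} {f : Fin k → P} (hf : Function.Injective f) :
    Function.Injective (subw (t := t) f) := by
  intro S S' h
  have h1 : (S.1.orderEmbOfFin S.2 : Fin t → Fin k) = S'.1.orderEmbOfFin S'.2 := by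
    funext i
    exact hf (congrFun h i)
  apply Subtype.ext
  have h2 := Finset.range_orderEmbOfFin S.1 S.2
  have h3 := Finset.range_orderEmbOfFin S'.1 S'.2
  rw [h1, h3] at h2
  exact_mod_cast h2.symm

/-- the subwords of length `t` -/
noncomputable def subws [DecidableEq P] {k : ℕ} (t : ℕ) (f : Fin k → P) : Finset (Fin t → P) :=
  (Finset.univ : Finset {S : Finset (Fin k) // S.card = t}).image (subw f)

theorem mem_subws [DecidableEq P] {k t : ℕ} {f : Fin k → P} {g : Fin t → P}
    (h : g ∈ subws t f) : ∃ e : Fin t → Fin k, StrictMono e ∧ f ∘ e = g := by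
  obtain ⟨S, -, rfl⟩ := Finset.mem_image.1 h
  exact ⟨_, (S.1.orderEmbOfFin S.2).strictMono, rfl⟩

theorem card_subws [DecidableEq P] {k t : ℕ} {f : Fin k → P} (hf : Function.Injective f) :
    (subws t f).card = k.choose t := by
  unfold subws
  rw [Finset.card_image_of_injective _ (subw_injective hf), Finset.card_univ,
    Fintype.card_finset_len, Fintype.card_fin]

/-- the subwords with a given property of the positions `i`, `j`, at least `C(k-2,t-2)` of them -/
theorem card_subws_pair [DecidableEq P] {k t : ℕ} (ht : 2 ≤ t) {f : Fin k → P}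
    (hf : Function.Injective f) {i j : Fin k} (hij : i ≠ j) (B : Finset (Fin t → P))
    (hB : ∀ e : Fin t → Fin k, StrictMono e → (∃ a, e a = i) → (∃ b, e b = j) → f ∘ e ∈ B) :
    (k - 2).choose (t - 2) ≤ (subws t f ∩ B).card := by
  classical
  have h1 : (Finset.powersetCard (t - 2) ((Finset.univ : Finset (Fin k)) \ {i, j})).card =
      (k - 2).choose (t - 2) := by
    rw [Finset.card_powersetCard, Finset.card_sdiff_of_subset (Finset.subset_univ _),
      Finset.card_univ, Fintype.card_fin, Finset.card_pair hij]
  rw [← h1]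
  have hcard : ∀ T ∈ Finset.powersetCard (t - 2) ((Finset.univ : Finset (Fin k)) \ {i, j}),
      (T ∪ {i, j}).card = t := by
    intro T hT
    obtain ⟨h2, h3⟩ := Finset.mem_powersetCard.1 hT
    rw [Finset.card_union_of_disjoint, h3, Finset.card_pair hij]
    · omega
    · rw [Finset.disjoint_left]
      intro a ha hb
      exact (Finset.mem_sdiff.1 (h2 ha)).2 hb
  refine Finset.card_le_card_of_injOn
    (fun T => if h : (T ∪ {i, j}).card = t then subw f ⟨T ∪ {i, j}, h⟩ else fun _ => f i) ?_ ?_
  · intro T hT
    rw [Finset.mem_coe] at hT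
    have hc := hcard T hT
    simp only [dif_pos hc]
    rw [Finset.mem_coe, Finset.mem_inter]
    refine ⟨Finset.mem_image_of_mem _ (Finset.mem_univ _), ?_⟩
    have hr := Finset.range_orderEmbOfFin (T ∪ {i, j}) hc
    have hmem : ∀ x ∈ T ∪ {i, j}, ∃ a, (T ∪ {i, j}).orderEmbOfFin hc a = x := by
      intro x hx
      have : x ∈ Set.range ((T ∪ {i, j}).orderEmbOfFin hc) := by
        rw [hr]; exact_mod_cast hx
      exact this
    exact hB _ ((T ∪ {i, j}).orderEmbOfFin hc).strictMono (hmem i (by simp)) (hmem j (by simp))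
  · intro T hT T' hT' h
    rw [Finset.mem_coe] at hT hT'
    have hc := hcard T hT
    have hc' := hcard T' hT'
    simp only [dif_pos hc, dif_pos hc'] at h
    have h2 := subw_injective hf h
    have h3 : T ∪ {i, j} = T' ∪ {i, j} := congrArg Subtype.val h2
    have key : ∀ U ∈ Finset.powersetCard (t - 2) ((Finset.univ : Finset (Fin k)) \ {i, j}),
        (U ∪ {i, j}) \ {i, j} = U := by
      intro U hU
      have hd : Disjoint U {i, j} := by
        rw [Finset.disjoint_left]
        intro a ha hb
        exact (Finset.mem_sdiff.1 ((Finset.mem_powersetCard.1 hU).1 ha)).2 hb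
      rw [Finset.union_sdiff_right, Finset.sdiff_eq_self_of_disjoint hd]
    rw [← key T hT, ← key T' hT', h3]

theorem pow_le_desc (N : ℕ) : ∀ t : ℕ,
    N ^ t ≤ N.descFactorial t + t.choose 2 * N ^ (t - 1)
  | 0 => by simp
  | (t + 1) => by
    have ih := pow_le_desc N t
    have h1 : N.descFactorial t ≤ N ^ t := Nat.descFactorial_le_pow N t
    have h2 : N.descFactorial (t + 1) = (N - t) * N.descFactorial t := Nat.descFactorial_succ N t
    have h3 : N ≤ (N - t) + t := by omega
    have h4 : (t + 1).choose 2 = t + t.choose 2 := by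
      rw [Nat.choose_succ_succ' t 1, Nat.choose_one_right]
    have h5 : N * (t.choose 2 * N ^ (t - 1)) = t.choose 2 * N ^ t := by
      rcases Nat.eq_zero_or_pos t with rfl | ht
      · simp
      · obtain ⟨s, rfl⟩ : ∃ s, t = s + 1 := ⟨t - 1, by omega⟩
        rw [Nat.add_sub_cancel, pow_succ]
        ring
    rw [h2, h4, Nat.add_sub_cancel]
    calc N ^ (t + 1) = N * N ^ t := by rw [pow_succ]; ring
      _ ≤ N * (N.descFactorial t + t.choose 2 * N ^ (t - 1)) := Nat.mul_le_mul_left _ ih
      _ = N * N.descFactorial t + t.choose 2 * N ^ t := by rw [mul_add, h5]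
      _ ≤ ((N - t) + t) * N.descFactorial t + t.choose 2 * N ^ t :=
          Nat.add_le_add_right (Nat.mul_le_mul_right _ h3) _
      _ = (N - t) * N.descFactorial t + t * N.descFactorial t + t.choose 2 * N ^ t := by ring
      _ ≤ (N - t) * N.descFactorial t + t * N ^ t + t.choose 2 * N ^ t := by
          gcongr
      _ = (N - t) * N.descFactorial t + (t + t.choose 2) * N ^ t := by ring

theorem card_inj_words [Fintype P] [DecidableEq P] (t : ℕ) :
    (Finset.univ.filter (fun g : Fin t → P => Function.Injective g)).card =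
      (Fintype.card P).descFactorial t := by
  have h := Fintype.card_embedding_eq (α := Fin t) (β := P)
  rw [Fintype.card_fin] at h
  rw [← h, ← Fintype.card_subtype]
  exact Fintype.card_congr (Equiv.subtypeInjectiveEquivEmbedding (Fin t) P)

theorem card_noninj [Fintype P] [DecidableEq P] [Nonempty P] (t : ℕ) :
    ((Finset.univ.filter (fun g : Fin t → P => ¬ Function.Injective g)).card : ℝ) ≤
      (t.choose 2 : ℝ) / Fintype.card P * (Fintype.card P : ℝ) ^ t := by
  have h1 := Finset.card_filter_add_card_filter_not (s := (Finset.univ : Finset (Fin t → P)))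
    (fun g : Fin t → P => Function.Injective g)
  rw [card_inj_words, Finset.card_univ, Fintype.card_fun, Fintype.card_fin] at h1
  have h2 := pow_le_desc (Fintype.card P) t
  have h3 : (Finset.univ.filter (fun g : Fin t → P => ¬ Function.Injective g)).card ≤
      t.choose 2 * Fintype.card P ^ (t - 1) := by omega
  have hP : (0 : ℝ) < Fintype.card P := by exact_mod_cast Fintype.card_pos
  have h4 : ((Finset.univ.filter (fun g : Fin t → P => ¬ Function.Injective g)).card : ℝ) ≤
      t.choose 2 * (Fintype.card P : ℝ) ^ (t - 1) := by exact_mod_cast h3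
  refine h4.trans (le_of_eq ?_)
  rcases Nat.eq_zero_or_pos t with rfl | ht
  · simp
  · obtain ⟨s, rfl⟩ : ∃ s, t = s + 1 := ⟨t - 1, by omega⟩
    rw [Nat.add_sub_cancel, pow_succ]
    field_simp

theorem dn_noninj [Fintype P] [DecidableEq P] [Nonempty P] (t : ℕ) :
    dn (Finset.univ.filter (fun g : Fin t → P => ¬ Function.Injective g)) ≤
      (t.choose 2 : ℝ) / Fintype.card P := by
  unfold dn
  have hP : (0 : ℝ) < Fintype.card P := by exact_mod_cast Fintype.card_pos
  rw [div_le_iff₀ (by positivity), Fintype.card_fin]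
  exact card_noninj t

end Pool.Agent.T2H14.U
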